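import Pool.Agent.N317.SM.Foli

set_option autoImplicit false

/-!
# The homoclinic class of the fixed point
-/

namespace Pool.Agent.N317.SM

open Real MeasureTheory Function Set Filter Topology
open Pool.Agent.TH705.SM Pool.Agent.Y332.SM
open scoped ENNReal

/-- the points all of whose neighbourhoods have images with full pieces of the unstable manifold -/
def Kp (a : ℝ) : Set T2 :=
  {p | ∀ U : Set T2, IsOpen U → p ∈ U → ∃ n, HasCurve ((S a)^[n] '' U ∩ Gu a)}

/-- the homoclinic class -/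
def K (a : ℝ) : Set T2 := Kp a ∩ Prod.swap ⁻¹' Kp a

theorem Kp_closed (a : ℝ) : IsClosed (Kp a) := by
  rw [← isOpen_compl_iff, isOpen_iff_forall_mem_open]
  intro p hp
  rw [mem_compl_iff, Kp, Set.mem_ofPred_eq] at hp
  push Not at hp
  obtain ⟨U, hU, hpU, h⟩ := hp
  refine ⟨U, fun q hq hqK => ?_, hU, hpU⟩
  obtain ⟨n, hn⟩ := hqK U hU hq
  exact h n hn

theorem K_closed (a : ℝ) : IsClosed (K a) :=
  (Kp_closed a).inter ((Kp_closed a).preimage continuous_swap)

theorem Kp_S {a : ℝ} (ha : 256 ≤ |a|) : S a ⁻¹' Kp a = Kp a := by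
  ext p
  rw [mem_preimage]
  constructor
  · intro hp U hU hpU
    obtain ⟨n, hn⟩ := hp (S a '' U) ((SH a).isOpenMap U hU) (mem_image_of_mem _ hpU)
    refine ⟨n + 1, ?_⟩
    rw [iterate_succ, image_comp]
    exact hn
  · intro hp U hU hpU
    obtain ⟨n, hn⟩ := hp (S a ⁻¹' U) (hU.preimage (S_cont a)) hpU
    have h1 := hasCurve_S ha hn
    refine ⟨n, h1.mono (inter_subset_inter_left _ ?_)⟩
    rw [image_succ, iterate_succ, image_comp]
    apply image_mono
    exact image_preimage_subset _ _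

theorem K_inv {a : ℝ} (ha : 256 ≤ |a|) : S a ⁻¹' K a = K a := by
  unfold K
  rw [preimage_inter, Kp_S ha, swap_inv' (Kp_S ha)]

theorem swap_K {a : ℝ} {p : T2} (hp : p ∈ K a) : Prod.swap p ∈ K a := by
  refine ⟨hp.2, ?_⟩
  rw [mem_preimage, Prod.swap_swap]
  exact hp.1

theorem mem_Kp {a : ℝ} (ha : 256 ≤ |a|) {x0 y0 ρ : ℝ} (hρ : 0 < ρ) (h1 : LC (Gu a) x0 y0 ρ)
    (h2 : LC (Gu a) y0 x0 ρ) : pr (x0, y0) ∈ Kp a := by
  intro U hU hp
  have hs' := h2.mem hρ.le
  have hs : ((x0 : UnitAddCircle), (y0 : UnitAddCircle)) ∈ Gs a := hs'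
  obtain ⟨w, hw0, hw1, hw2⟩ := h1
  have hwc : ContinuousWithinAt w {x | |x - x0| ≤ ρ} x0 := by
    have hlip : LipschitzOnWith 1 w {x | |x - x0| ≤ ρ} := by
      apply LipschitzOnWith.of_dist_le_mul
      intro x hx y hy
      rw [Real.dist_eq, Real.dist_eq, NNReal.coe_one]
      have h3 := hw2 x y hx hy
      have h4 := abs_nonneg (x - y)
      linarith
    exact hlip.continuousOn.continuousWithinAt (by
      show |x0 - x0| ≤ ρ
      rw [sub_self, abs_zero]; exact hρ.le)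
  have hnh : {x | |x - x0| ≤ ρ} ∈ 𝓝 x0 := by
    refine Filter.mem_of_superset (Metric.ball_mem_nhds x0 hρ) fun x hx => ?_
    rw [Metric.mem_ball, Real.dist_eq] at hx
    exact hx.le
  have hwc' : ContinuousAt w x0 := hwc.continuousAt hnh
  have hpc : ContinuousAt (fun x => pr (x, w x)) x0 :=
    pr_cont.continuousAt.comp (continuousAt_id.prodMk hwc')
  have hU' : U ∈ 𝓝 (pr (x0, w x0)) := by
    rw [hw0]
    exact hU.mem_nhds hp
  obtain ⟨δ, hδ, h3⟩ := Metric.eventually_nhds_iff.1 (hpc.eventually hU')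
  have h4 : LC (U ∩ Gu a) x0 y0 (min (δ / 2) ρ) := by
    refine ⟨w, hw0, fun x hx => ⟨?_, hw1 x (hx.trans (min_le_right _ _))⟩, fun x y hx hy =>
      hw2 x y (hx.trans (min_le_right _ _)) (hy.trans (min_le_right _ _))⟩
    apply h3 (y := x)
    rw [Real.dist_eq]
    have := hx.trans (min_le_left _ _)
    linarith
  exact grow ha (by positivity) h4 hs

theorem mem_K {a : ℝ} (ha : 256 ≤ |a|) {x0 y0 ρ : ℝ} (hρ : 0 < ρ) (h1 : LC (Gu a) x0 y0 ρ)
    (h2 : LC (Gu a) y0 x0 ρ) : pr (x0, y0) ∈ K a := by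
  refine ⟨mem_Kp ha hρ h1 h2, ?_⟩
  have h3 := mem_Kp ha hρ h2 h1
  exact h3

theorem zero_mem_K {a : ℝ} (ha : 256 ≤ |a|) : ((0 : UnitAddCircle), (0 : UnitAddCircle)) ∈ K a := by
  have h := mem_K ha (by norm_num : (0:ℝ) < 1 / 6) (LC_zero ha) (LC_zero ha)
  unfold pr at h
  rwa [AddCircle.coe_zero] at h

theorem Gs_tendsto {a : ℝ} {p : T2} (hp : p ∈ Gs a) :
    Tendsto (fun j => (S a)^[j] p) atTop (𝓝 (0, 0)) := hp.2

theorem Gu_tendsto {a : ℝ} {p : T2} (hp : p ∈ Gu a) :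
    Tendsto (fun j => (Si a)^[j] p) atTop (𝓝 (0, 0)) := by
  have h1 : Tendsto (fun j => (S a)^[j] (Prod.swap p)) atTop (𝓝 (0, 0)) := hp.2
  have h2 := (continuous_swap.tendsto ((0 : UnitAddCircle), (0 : UnitAddCircle))).comp h1
  refine h2.congr fun j => ?_
  rw [comp_apply, swap_S_iter, Prod.swap_swap]

theorem tendsto_S_iter {a : ℝ} {p : T2} (n : ℕ)
    (h : Tendsto (fun j => (S a)^[j] ((S a)^[n] p)) atTop (𝓝 (0, 0))) :
    Tendsto (fun j => (S a)^[j] p) atTop (𝓝 (0, 0)) := by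
  rw [← tendsto_add_atTop_iff_nat n]
  refine h.congr fun j => ?_
  rw [← iterate_add_apply]

theorem tendsto_Si_iter {a : ℝ} {p : T2} (n : ℕ)
    (h : Tendsto (fun j => (Si a)^[j] ((S a)^[n] p)) atTop (𝓝 (0, 0))) :
    Tendsto (fun j => (Si a)^[j] p) atTop (𝓝 (0, 0)) := by
  have h1 := (tendsto_add_atTop_iff_nat n).2 h
  refine h1.congr fun j => ?_
  rw [iterate_add_apply, S_iter_Si']

/-- **mixing of the homoclinic class**, with homoclinic points -/
theorem K_mixing {a : ℝ} (ha : 256 ≤ |a|) {U V : Set T2} (hU : IsOpen U) (hV : IsOpen V)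
    (hUK : (U ∩ K a).Nonempty) (hVK : (V ∩ K a).Nonempty) :
    ∃ N, ∀ k ≥ N, ∃ u ∈ U ∩ K a, (S a)^[k] u ∈ V ∩ K a ∧
      Tendsto (fun j => (S a)^[j] u) atTop (𝓝 (0, 0)) ∧
      Tendsto (fun j => (Si a)^[j] u) atTop (𝓝 (0, 0)) := by
  obtain ⟨p, hpU, hpK⟩ := hUK
  obtain ⟨q, hqV, hqK⟩ := hVK
  obtain ⟨n, hn⟩ := hpK.1 U hU hpU
  obtain ⟨m, hm⟩ := hqK.2 (Prod.swap ⁻¹' V) (hV.preimage continuous_swap)
    (by rw [mem_preimage, Prod.swap_swap]; exact hqV)
  refine ⟨n + m, fun k hk => ?_⟩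
  obtain ⟨i, rfl⟩ := Nat.exists_eq_add_of_le hk
  obtain ⟨x0, y0, h1, h2⟩ := meet3 (hasCurve_iter ha hn i) hm
  have hz := mem_K ha (by norm_num : (0:ℝ) < 3 / 8) (h1.mono inter_subset_right)
    (h2.mono inter_subset_right)
  obtain ⟨⟨u, huU, hu⟩, hzu⟩ := h1.mem (by norm_num)
  obtain ⟨⟨v, hvV, hv⟩, hzs⟩ := h2.mem (by norm_num)
  have hv' : Prod.swap v ∈ V := hvV
  set z : T2 := ((x0 : UnitAddCircle), (y0 : UnitAddCircle)) with hzd
  have hz' : z ∈ K a := hz
  have huK : u ∈ K a := of_iter_mem (K_inv ha) (n + i) (by rw [hu]; exact hz')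
  have hvz : (S a)^[m] z = Prod.swap v := by
    have h3 : Prod.swap z = (S a)^[m] v := hv.symm
    have h4 : z = (Si a)^[m] (Prod.swap v) := by
      rw [← swap_S_iter, ← h3, Prod.swap_swap]
    rw [h4, S_iter_Si]
  have hzs' : z ∈ Gs a := hzs
  refine ⟨u, ⟨huU, huK⟩, ?_, ?_, ?_⟩
  · have e : n + m + i = m + (n + i) := by ring
    rw [e, iterate_add_apply, hu, hvz]
    refine ⟨hv', ?_⟩
    rw [← hvz]
    exact iter_mem (K_inv ha) hz' m
  · exact tendsto_S_iter (n + i) (by rw [hu]; exact Gs_tendsto hzs')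
  · exact tendsto_Si_iter (n + i) (by rw [hu]; exact Gu_tendsto hzu)

/-- the homoclinic class comes close to a point with a good stable and a good unstable leaf -/
theorem near_K {a : ℝ} (ha : 256 ≤ |a|) {t s x1 y1 r ρ : ℝ} (h1 : |x1 - t| ≤ r)
    (h2 : |y1 - s| ≤ r) (h3 : LC (Gu a) s x1 ρ) (h4 : LC (Gu a) t y1 ρ) (hr : 8 / 7 * r < ρ) :
    ∃ z ∈ K a, dist z ((t : UnitAddCircle), (s : UnitAddCircle)) ≤ 8 / 7 * r := by
  obtain ⟨x0, y0, h5, h6, h7, h8⟩ := cross_LC (r1 := r) (r2 := r) (κ := 8 / 7 * r) h4 h3 h1 h2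
    (by linarith) hr.le (by linarith)
  have e : r + 8 / 7 * r / 8 = 8 / 7 * r := by ring
  rw [e] at h5 h7
  refine ⟨pr (x0, y0), mem_K ha (by linarith) h7 h8, ?_⟩
  unfold pr
  rw [Prod.dist_eq]
  apply max_le
  · rw [dist_eq_norm, ← AddCircle.coe_sub]
    exact (norm_coe_le _).trans h5
  · rw [dist_eq_norm, ← AddCircle.coe_sub]
    exact (norm_coe_le _).trans h6

theorem leaf_bad {a M : ℝ} (hM : 16 ≤ M) (haM : |a| = M ^ 2) {n : ℕ} (hn : 1 ≤ n) {t s : ℝ}
    (hb : ((t : UnitAddCircle), (s : UnitAddCircle)) ∉ bad a M n) :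
    ∃ x1, |x1 - t| ≤ min (rad M n) (8 / (5 * M) * (1 / 8) ^ n) ∧
      LC (Gu a) s x1 (27 / (5 * M) * (1 / 8) ^ n) := by
  have hM0 : 0 < M := by linarith
  have ha : 256 ≤ |a| := by rw [haM]; nlinarith
  unfold bad at hb
  rw [mem_union, not_or] at hb
  have hthr : ∀ k, 1 ≤ k → k ≤ n → thr M n k < |L a (X a s k t)| := by
    intro k hk1 hk2
    by_contra hcon
    rw [not_lt] at hcon
    apply hb.1
    refine ⟨k, hk1, hk2, ?_⟩
    rw [X_of_iter hk1, Lc_coe]
    exact hcon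
  obtain ⟨h3, h4⟩ := good_point hM haM hn hb.1 hb.2
  have hbs := bs_ge (a := a) (s := s) (t := t) hM n
  obtain ⟨x1, h5, h6⟩ := leaf ha hbs h3 (h := 27 / (5 * M) * (1 / 8) ^ n) (by positivity) (by
      have h7 : ((1:ℝ) / 8) ^ n ≤ 1 := pow_le_one₀ (by norm_num) (by norm_num)
      have h8 : ((1:ℝ) / 8) ^ (n + 1) ≤ 1 / 8 := by
        rw [pow_succ]; linarith
      have h9 : 27 / (5 * M) ≤ 27 / 80 := div_le_div_of_nonneg_left (by norm_num) (by norm_num)
        (by linarith)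
      have h10 : 27 / (5 * M) * (1 / 8) ^ n ≤ 27 / 80 * 1 :=
        mul_le_mul h9 h7 (by positivity) (by norm_num)
      calc 27 / (5 * M) * (1 / 8) ^ n * (1 / 8) ^ (n + 1) ≤ 27 / 80 * 1 * (1 / 8) :=
            mul_le_mul h10 h8 (by positivity) (by norm_num)
        _ ≤ 1 / 10 := by norm_num)
    (by
      intro k hk1 hk2 y hy
      have h7 := rem_le (a := a) (s := s) (t := t) hM n (n - k) k (by omega)
      set σ : ℝ := 1 / (5 * M) * (1 / 8) ^ (n - k) with hσ
      have hσ0 : 0 < σ := by positivity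
      have h8 : 27 / (5 * M) * (1 / 8) ^ n * (1 / 8) ^ k ≤ 27 / 64 * σ := by
        have e1 : n = (n - k) + k := by omega
        have e2 : ((1:ℝ) / 8) ^ n = (1 / 8) ^ (n - k) * (1 / 8) ^ k := by
          rw [← pow_add, ← e1]
        have h9 : ((1:ℝ) / 8) ^ k ≤ 1 / 8 := by
          have : ((1:ℝ) / 8) ^ k ≤ (1 / 8) ^ 1 :=
            pow_le_pow_of_le_one (by norm_num) (by norm_num) hk1
          simpa using this
        have h10 : ((1:ℝ) / 8) ^ k * (1 / 8) ^ k ≤ 1 / 8 * (1 / 8) :=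
          mul_le_mul h9 h9 (by positivity) (by norm_num)
        rw [e2]
        calc 27 / (5 * M) * ((1 / 8) ^ (n - k) * (1 / 8) ^ k) * (1 / 8) ^ k
            = 27 * σ * ((1 / 8) ^ k * (1 / 8) ^ k) := by rw [hσ]; ring
          _ ≤ 27 * σ * (1 / 8 * (1 / 8)) := mul_le_mul_of_nonneg_left h10 (by positivity)
          _ = 27 / 64 * σ := by ring
      have h9 : |y - X a s k t| ≤ σ := by linarith
      have h10 := L_lip a (X a s k t) y
      rw [abs_sub_comm (X a s k t)] at h10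
      have h11 : 4 * π ^ 2 * |a| * |y - X a s k t| ≤ 4 * π ^ 2 * |a| * σ :=
        mul_le_mul_of_nonneg_left h9 (by positivity)
      have h12 := hthr k hk1 hk2
      unfold thr at h12
      rw [haM] at h11 h10
      have h13 := abs_sub_abs_le_abs_sub (L a (X a s k t)) (L a y)
      have h14 : (16:ℝ) ≤ if k = n then 10 * M else 16 := by
        split_ifs <;> linarith
      rw [← hσ] at h12
      linarith)
  refine ⟨x1, le_min (h5.trans h4) (h5.trans ?_), h6⟩
  have h7 := rem_le (a := a) (s := s) (t := t) hM n (n - 1) 1 (by omega)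
  refine h7.trans (le_of_eq ?_)
  have e1 : n = (n - 1) + 1 := by omega
  conv_rhs => rw [e1, pow_succ]
  ring

/-- **the homoclinic class comes close to every good point** -/
theorem near_bad {a M : ℝ} (hM : 16 ≤ M) (haM : |a| = M ^ 2) {n : ℕ} (hn : 1 ≤ n) {q : T2}
    (hb : q ∉ bad a M n) (hb' : Prod.swap q ∉ bad a M n) :
    ∃ z ∈ K a, dist z q ≤ 2 * rad M n := by
  have hM0 : 0 < M := by linarith
  have ha : 256 ≤ |a| := by rw [haM]; nlinarith
  obtain ⟨q1, q2⟩ := q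
  induction q1 using QuotientAddGroup.induction_on with
  | H t =>
    induction q2 using QuotientAddGroup.induction_on with
    | H s =>
      obtain ⟨x1, h1, h2⟩ := leaf_bad hM haM hn hb
      obtain ⟨y1, h3, h4⟩ := leaf_bad hM haM hn (t := s) (s := t) hb'
      obtain ⟨z, hz, hd⟩ := near_K ha h1 h3 h2 h4 (by
        have h5 := min_le_right (rad M n) (8 / (5 * M) * (1 / 8) ^ n)
        have h6 : 0 < 1 / (5 * M) * ((1:ℝ) / 8) ^ n := by positivity
        have e1 : 8 / (5 * M) * ((1:ℝ) / 8) ^ n = 8 * (1 / (5 * M) * (1 / 8) ^ n) := by ring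
        have e2 : 27 / (5 * M) * ((1:ℝ) / 8) ^ n = 27 * (1 / (5 * M) * (1 / 8) ^ n) := by ring
        rw [e1] at h5 ⊢
        rw [e2]
        linarith)
      refine ⟨z, hz, hd.trans ?_⟩
      have h5 := min_le_left (rad M n) (8 / (5 * M) * (1 / 8) ^ n)
      have h6 := rad_nonneg M n
      linarith

/-- **returning domains which meet the homoclinic class** -/
theorem returning_K {a : ℝ} (ha : 256 ≤ |a|) {D : Set T2} (hDo : IsOpen D)
    (hDc : IsPreconnected D) (hD : ∀ k, (S a)^[k] '' D = D ∨ Disjoint ((S a)^[k] '' D) D)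
    (hDK : (D ∩ K a).Nonempty) :
    S a ⁻¹' D = D ∧ IsConnected (pr ⁻¹' D) ∧ K a ⊆ closure (D ∩ K a) := by
  have hr : ∃ N, ∀ k ≥ N, (S a)^[k] '' D = D := by
    obtain ⟨N, hN⟩ := K_mixing ha hDo hDo hDK hDK
    refine ⟨N, fun k hk => ?_⟩
    obtain ⟨u, hu, hu2, _⟩ := hN k hk
    rcases hD k with h | h
    · exact h
    · exact absurd (Set.disjoint_left.1 h (mem_image_of_mem _ hu.1) hu2.1) id
  obtain ⟨N, hN⟩ := hr
  have h5 : S a '' D = D := by
    have h1 := hN N le_rfl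
    have h2 := hN (N + 1) (by omega)
    rw [← image_succ, h1] at h2
    exact h2
  have h6 : ∀ k, (S a)^[k] '' D = D := by
    intro k
    induction k with
    | zero => simp
    | succ k ih => rw [iterate_succ', image_comp, ih, h5]
  have hinv : S a ⁻¹' D = D := pre_S h5
  obtain ⟨p, hpD, hpK⟩ := hDK
  have h1 : HasCurve D := by
    obtain ⟨n, hn⟩ := hpK.1 D hDo hpD
    rw [h6] at hn
    exact hn.mono inter_subset_left
  have h2 : HasCurve (Prod.swap ⁻¹' D) := by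
    obtain ⟨m, hm⟩ := hpK.2 (Prod.swap ⁻¹' D) (hDo.preimage continuous_swap)
      (by rw [mem_preimage, Prod.swap_swap]; exact hpD)
    have h7 : S a '' (Prod.swap ⁻¹' D) = Prod.swap ⁻¹' D := image_S (swap_inv' hinv)
    have h8 : ∀ k, (S a)^[k] '' (Prod.swap ⁻¹' D) = Prod.swap ⁻¹' D := by
      intro k
      induction k with
      | zero => simp
      | succ k ih => rw [iterate_succ', image_comp, ih, h7]
    rw [h8] at hm
    exact hm.mono inter_subset_left
  have h7 : Si a '' D = D := by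
    conv_lhs => rw [← h5, ← image_comp]
    have : Si a ∘ S a = id := funext (Si_S a)
    rw [this, image_id]
  have hL1 : Long D := by
    have := long_S ha h1
    rwa [h5] at this
  have hL2 : Long (Prod.swap ⁻¹' D) := by
    have := long_Si ha h2
    rwa [h7] at this
  refine ⟨hinv, conn_of_long hDo hDc hL1 hL2, ?_⟩
  intro q hq
  rw [_root_.mem_closure_iff]
  intro V hV hqV
  obtain ⟨N, hN⟩ := K_mixing ha hDo hV ⟨p, hpD, hpK⟩ ⟨q, hqV, hq⟩
  obtain ⟨u, hu, hu2, _⟩ := hN N le_rfl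
  exact ⟨_, hu2.1, by rw [← h6 N]; exact mem_image_of_mem _ hu.1, hu2.2⟩

end Pool.Agent.N317.SM
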