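import Pool.Agent.N317.SM.Isl

set_option autoImplicit false

/-!
# A domain with a long horizontal and a long vertical curve has a connected lift to the plane
-/

namespace Pool.Agent.N317.SM

open Real MeasureTheory Function Set Filter Topology
open Pool.Agent.TH705.SM Pool.Agent.Y332.SM
open scoped ENNReal

/-- translation by an integer vector -/
noncomputable def tr (k l : ℤ) : (ℝ × ℝ) ≃ₜ (ℝ × ℝ) := Homeomorph.subRight ((k : ℝ), (l : ℝ))

theorem tr_apply (k l : ℤ) (x : ℝ × ℝ) : tr k l x = x - ((k : ℝ), (l : ℝ)) := rfl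

theorem pr_tr (k l : ℤ) (x : ℝ × ℝ) : pr (tr k l x) = pr x := pr_sub x k l

theorem tr_add (k l k' l' : ℤ) (x : ℝ × ℝ) : tr k l (tr k' l' x) = tr (k + k') (l + l') x := by
  simp only [tr_apply]
  ext
  · simp only [Prod.fst_sub]; push_cast; ring
  · simp only [Prod.snd_sub]; push_cast; ring

theorem tr_zero (x : ℝ × ℝ) : tr 0 0 x = x := by
  rw [tr_apply]
  ext <;> simp

theorem image_tr (k l : ℤ) (D : Set T2) : tr k l '' (pr ⁻¹' D) = pr ⁻¹' D := by
  ext x
  constructor
  · rintro ⟨y, hy, rfl⟩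
    rw [mem_preimage, pr_tr]
    exact hy
  · intro hx
    refine ⟨tr (-k) (-l) x, ?_, ?_⟩
    · rw [mem_preimage, pr_tr]
      exact hx
    · rw [tr_add, add_neg_cancel, add_neg_cancel, tr_zero]

/-- a domain whose lift has a component invariant under the two generators has a connected lift -/
theorem conn_of_inv {D : Set T2} (hDo : IsOpen D) (hDc : IsPreconnected D) {x₀ : ℝ × ℝ}
    (hx₀ : pr x₀ ∈ D)
    (h1 : tr 1 0 '' connectedComponentIn (pr ⁻¹' D) x₀ = connectedComponentIn (pr ⁻¹' D) x₀)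
    (h2 : tr 0 1 '' connectedComponentIn (pr ⁻¹' D) x₀ = connectedComponentIn (pr ⁻¹' D) x₀) :
    IsConnected (pr ⁻¹' D) := by
  set E : Set (ℝ × ℝ) := pr ⁻¹' D with hE
  set C : Set (ℝ × ℝ) := connectedComponentIn E x₀ with hC
  have hEo : IsOpen E := hDo.preimage pr_cont
  have hCo : IsOpen C := hEo.connectedComponentIn
  have hCE : C ⊆ E := connectedComponentIn_subset _ _
  have hx₀C : x₀ ∈ C := mem_connectedComponentIn hx₀
  have f1 : ∀ z, z ∈ C → tr 1 0 z ∈ C := fun z hz => by
    rw [← h1]; exact mem_image_of_mem _ hz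
  have f2 : ∀ z, z ∈ C → tr 0 1 z ∈ C := fun z hz => by
    rw [← h2]; exact mem_image_of_mem _ hz
  have g1 : ∀ z, z ∈ C → tr (-1) 0 z ∈ C := fun z hz => by
    rw [← h1] at hz
    obtain ⟨y, hy, rfl⟩ := hz
    rw [tr_add]
    simpa [tr_zero] using hy
  have g2 : ∀ z, z ∈ C → tr 0 (-1) z ∈ C := fun z hz => by
    rw [← h2] at hz
    obtain ⟨y, hy, rfl⟩ := hz
    rw [tr_add]
    simpa [tr_zero] using hy
  have F1 : ∀ (k : ℤ) z, z ∈ C → tr k 0 z ∈ C := by
    intro k
    induction k using Int.induction_on with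
    | zero => intro z hz; rw [tr_zero]; exact hz
    | succ k ih =>
      intro z hz
      have := f1 _ (ih z hz)
      rwa [tr_add, add_comm 1, add_zero] at this
    | pred k ih =>
      intro z hz
      have := g1 _ (ih z hz)
      rwa [tr_add, add_zero, add_comm (-1 : ℤ), ← sub_eq_add_neg] at this
  have F2 : ∀ (l : ℤ) z, z ∈ C → tr 0 l z ∈ C := by
    intro k
    induction k using Int.induction_on with
    | zero => intro z hz; rw [tr_zero]; exact hz
    | succ k ih =>
      intro z hz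
      have := f2 _ (ih z hz)
      rwa [tr_add, add_comm 1, add_zero] at this
    | pred k ih =>
      intro z hz
      have := g2 _ (ih z hz)
      rwa [tr_add, add_zero, add_comm (-1 : ℤ), ← sub_eq_add_neg] at this
  have F : ∀ (k l : ℤ) z, z ∈ C → tr k l z ∈ C := by
    intro k l z hz
    have := F1 k _ (F2 l z hz)
    rwa [tr_add, add_zero, zero_add] at this
  -- the rest of the lift is open
  have hRo : IsOpen (E \ C) := by
    rw [isOpen_iff_forall_mem_open]
    intro y hy
    refine ⟨connectedComponentIn E y, ?_, hEo.connectedComponentIn,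
      mem_connectedComponentIn hy.1⟩
    intro z hz
    refine ⟨connectedComponentIn_subset _ _ hz, fun hzC => hy.2 ?_⟩
    have e1 := connectedComponentIn_eq hz
    have e2 := connectedComponentIn_eq hzC
    have : y ∈ connectedComponentIn E y := mem_connectedComponentIn hy.1
    rw [e1, ← e2] at this
    exact this
  have hdisj : Disjoint (pr '' C) (pr '' (E \ C)) := by
    rw [Set.disjoint_left]
    rintro _ ⟨x, hx, rfl⟩ ⟨y, hy, hxy⟩
    obtain ⟨k, l, hkl⟩ := pr_eq hxy.symm
    apply hy.2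
    rw [hkl]
    exact F k l x hx
  have hDsub : D ⊆ pr '' C ∪ pr '' (E \ C) := by
    rintro ⟨p1, p2⟩ hp
    induction p1 using QuotientAddGroup.induction_on with
    | H t =>
      induction p2 using QuotientAddGroup.induction_on with
      | H s =>
        by_cases hC' : (t, s) ∈ C
        · exact Or.inl ⟨(t, s), hC', rfl⟩
        · exact Or.inr ⟨(t, s), ⟨hp, hC'⟩, rfl⟩
  have hDC : D ⊆ pr '' C := hDc.subset_left_of_subset_union (pr_open _ hCo) (pr_open _ hRo) hdisj
    hDsub ⟨pr x₀, hx₀, mem_image_of_mem _ hx₀C⟩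
  have hEC : E = C := by
    apply Subset.antisymm _ hCE
    intro x hx
    obtain ⟨y, hy, hxy⟩ := hDC hx
    obtain ⟨k, l, hkl⟩ := pr_eq hxy
    rw [hkl]
    exact F k l y hy
  rw [hEC]
  exact ⟨⟨x₀, hx₀C⟩, isPreconnected_connectedComponentIn⟩

/-- a domain with a long horizontal and a long vertical curve has a connected lift -/
theorem conn_of_long {D : Set T2} (hDo : IsOpen D) (hDc : IsPreconnected D) (h1 : Long D)
    (h2 : Long (Prod.swap ⁻¹' D)) : IsConnected (pr ⁻¹' D) := by
  obtain ⟨α, w, hw1, hw2⟩ := h1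
  obtain ⟨β, v, hv1, hv2⟩ := h2
  set E : Set (ℝ × ℝ) := pr ⁻¹' D with hE
  have hα : α ∈ Icc (α - 2) (α + 2) := ⟨by linarith, by linarith⟩
  have hβ : β ∈ Icc (β - 2) (β + 2) := ⟨by linarith, by linarith⟩
  have hcont : ∀ (γ : ℝ) (u : ℝ → ℝ), (∀ x ∈ Icc (γ - 2) (γ + 2), ∀ y ∈ Icc (γ - 2) (γ + 2),
      |u x - u y| ≤ 1 / 8 * |x - y|) → ContinuousOn u (Icc (γ - 2) (γ + 2)) := by
    intro γ u hu
    have hlip : LipschitzOnWith 1 u (Icc (γ - 2) (γ + 2)) := by
      apply LipschitzOnWith.of_dist_le_mul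
      intro x hx y hy
      rw [Real.dist_eq, Real.dist_eq, NNReal.coe_one]
      have h3 := hu x hx y hy
      have h4 := abs_nonneg (x - y)
      linarith
    exact hlip.continuousOn
  -- the lifted horizontal curve
  set H : Set (ℝ × ℝ) := (fun x => (x, w x)) '' Icc (α - 2) (α + 2) with hH
  have hHc : IsPreconnected H :=
    isPreconnected_Icc.image _ (continuousOn_id.prodMk (hcont α w hw2))
  have hHE : H ⊆ E := by
    rintro _ ⟨x, hx, rfl⟩
    exact hw1 x hx
  -- the lifted vertical curve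
  set V : Set (ℝ × ℝ) := (fun y => (v y, y)) '' Icc (β - 2) (β + 2) with hV
  have hVc : IsPreconnected V :=
    isPreconnected_Icc.image _ ((hcont β v hv2).prodMk continuousOn_id)
  have hVE : V ⊆ E := by
    rintro _ ⟨y, hy, rfl⟩
    exact hv1 y hy
  set x₀ : ℝ × ℝ := (α, w α) with hx₀
  have hx₀H : x₀ ∈ H := ⟨α, hα, rfl⟩
  set p₀ : ℝ × ℝ := (v β, β) with hp₀
  have hp₀V : p₀ ∈ V := ⟨β, hβ, rfl⟩
  have hHC : H ⊆ connectedComponentIn E x₀ := hHc.subset_connectedComponentIn hx₀H hHE
  set i₀ : ℤ := round (v β - α) with hi₀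
  set j₀ : ℤ := round (β - w α) with hj₀
  have hi1 : |v β - α - i₀| ≤ 1 / 2 := abs_sub_round _
  have hj1 : |β - w α - j₀| ≤ 1 / 2 := abs_sub_round _
  rw [abs_le] at hi1 hj1
  have key : ∀ i j : ℤ, |v β - α - i| ≤ 3 / 2 → |β - w α - j| ≤ 3 / 2 →
      tr i j p₀ ∈ connectedComponentIn E x₀ := by
    intro i j hi hj
    obtain ⟨y, hy, hy1, hy2⟩ := meet2 hw2 hv2 hi hj
    have hq : tr i j (v y, y) ∈ H := by
      refine ⟨v y - i, hy1, ?_⟩
      rw [tr_apply]
      exact Prod.ext rfl hy2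
    have hqC := hHC hq
    have hTV : IsPreconnected (tr i j '' V) := hVc.image _ (tr i j).continuous.continuousOn
    have hTVE : tr i j '' V ⊆ E := by
      rw [hE, ← image_tr i j D]
      exact image_mono hVE
    have h3 : tr i j '' V ⊆ connectedComponentIn E (tr i j (v y, y)) :=
      hTV.subset_connectedComponentIn ⟨(v y, y), ⟨y, hy, rfl⟩, rfl⟩ hTVE
    rw [← connectedComponentIn_eq hqC] at h3
    exact h3 ⟨p₀, hp₀V, rfl⟩
  have k0 := key i₀ j₀ (by rw [abs_le]; constructor <;> linarith)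
    (by rw [abs_le]; constructor <;> linarith)
  have k1 := key (i₀ + 1) j₀ (by push_cast; rw [abs_le]; constructor <;> linarith)
    (by rw [abs_le]; constructor <;> linarith)
  have k2 := key i₀ (j₀ + 1) (by rw [abs_le]; constructor <;> linarith)
    (by push_cast; rw [abs_le]; constructor <;> linarith)
  have hpE : ∀ i j : ℤ, tr i j p₀ ∈ E := by
    intro i j
    rw [hE, mem_preimage, pr_tr]
    exact hVE hp₀V
  have hinv : ∀ k l : ℤ, tr (i₀ + k) (j₀ + l) p₀ ∈ connectedComponentIn E x₀ →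
      tr k l '' connectedComponentIn E x₀ = connectedComponentIn E x₀ := by
    intro k l hkl
    have e0 := connectedComponentIn_eq k0
    have e1 := connectedComponentIn_eq hkl
    have e2 := (tr k l).image_connectedComponentIn (hpE i₀ j₀)
    rw [image_tr k l D, ← hE] at e2
    have e3 : tr k l (tr i₀ j₀ p₀) = tr (i₀ + k) (j₀ + l) p₀ := by
      rw [tr_add, add_comm k, add_comm l]
    rw [e3, ← e1, ← e0] at e2
    exact e2
  refine conn_of_inv hDo hDc (x₀ := x₀) (hHE hx₀H) (hinv 1 0 ?_) (hinv 0 1 ?_)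
  · rw [add_zero]; exact k1
  · rw [add_zero]; exact k2

/-- a domain which is the injective image of a plane domain has a disconnected lift -/
theorem disc_of_inj {U : Set (ℝ × ℝ)} (hU : IsOpen U) (hne : U.Nonempty) (hinj : InjOn pr U) :
    ¬ IsPreconnected (pr ⁻¹' (pr '' U)) := by
  intro hcon
  set E : Set (ℝ × ℝ) := pr ⁻¹' (pr '' U) with hE
  set R : Set (ℝ × ℝ) := ⋃ k : ℤ, ⋃ l : ℤ, ⋃ _ : ¬ (k = 0 ∧ l = 0), tr k l '' U with hR
  have hRo : IsOpen R := by
    refine isOpen_iUnion fun k => isOpen_iUnion fun l => isOpen_iUnion fun _ => ?_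
    exact (tr k l).isOpenMap _ hU
  have hdisj : Disjoint U R := by
    rw [Set.disjoint_left]
    intro x hx hxR
    rw [hR] at hxR
    simp only [mem_iUnion] at hxR
    obtain ⟨k, l, hkl, y, hy, hyx⟩ := hxR
    have h1 : pr y = pr x := by rw [← hyx, pr_tr]
    have h2 := hinj hy hx h1
    rw [h2, tr_apply] at hyx
    apply hkl
    have h3 := congrArg Prod.fst hyx
    have h4 := congrArg Prod.snd hyx
    rw [Prod.fst_sub] at h3
    rw [Prod.snd_sub] at h4
    simp only [sub_eq_self] at h3 h4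
    exact ⟨by exact_mod_cast h3, by exact_mod_cast h4⟩
  have hsub : E ⊆ U ∪ R := by
    rintro x ⟨y, hy, hxy⟩
    obtain ⟨k, l, hkl⟩ := pr_eq hxy
    by_cases h0 : k = 0 ∧ l = 0
    · left
      rw [h0.1, h0.2] at hkl
      have : x = y := by
        rw [hkl, ← tr_apply, tr_zero]
      rw [this]
      exact hy
    · right
      rw [hR]
      simp only [mem_iUnion]
      exact ⟨k, l, h0, y, hy, hkl.symm⟩
  obtain ⟨x, hx⟩ := hne
  have hEU : E ⊆ U := hcon.subset_left_of_subset_union hU hRo hdisj hsub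
    ⟨x, mem_image_of_mem _ hx, hx⟩
  have h1 : tr 1 0 x ∈ E := by
    rw [hE, mem_preimage, pr_tr]
    exact mem_image_of_mem _ hx
  have h2 : tr 1 0 x ∈ R := by
    rw [hR]
    simp only [mem_iUnion]
    exact ⟨1, 0, by simp, x, hx, rfl⟩
  exact Set.disjoint_left.1 hdisj (hEU h1) h2

end Pool.Agent.N317.SM
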