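import Pool.Agent.N317.SM.Stab

set_option autoImplicit false

/-!
# Crossings, and the local stable leaf near a good point
-/

namespace Pool.Agent.N317.SM

open Real MeasureTheory Function Set Filter Topology
open Pool.Agent.TH705.SM Pool.Agent.Y332.SM
open scoped ENNReal

/-- a horizontal and a vertical local curve meet -/
theorem cross_LC {A B : Set T2} {α ya β xb RA RB r1 r2 κ : ℝ} (hA : LC A α ya RA)
    (hB : LC B β xb RB) (h1 : |xb - α| ≤ r1) (h2 : |ya - β| ≤ r2)
    (hκ : r2 + r1 / 8 ≤ 63 / 64 * κ) (hRB : κ ≤ RB) (hRA : r1 + κ / 8 ≤ RA) :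
    ∃ x0 y0, |x0 - α| ≤ r1 + κ / 8 ∧ |y0 - β| ≤ κ ∧ LC A x0 y0 (RA - (r1 + κ / 8)) ∧
      LC B y0 x0 (RB - κ) := by
  obtain ⟨w, hw0, hw1, hw2⟩ := hA
  obtain ⟨v, hv0, hv1, hv2⟩ := hB
  have hr1 : 0 ≤ r1 := (abs_nonneg _).trans h1
  have hr2 : 0 ≤ r2 := (abs_nonneg _).trans h2
  have hκ0 : 0 ≤ κ := by linarith
  have hin : ∀ y ∈ Icc (β - κ) (β + κ), |y - β| ≤ κ := by
    intro y hy
    rw [abs_le]
    constructor <;> linarith [hy.1, hy.2]
  have hv : ∀ y ∈ Icc (β - κ) (β + κ), |v y - α| ≤ r1 + κ / 8 := by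
    intro y hy
    have h3 := hv2 y β ((hin y hy).trans hRB) (by rw [sub_self, abs_zero]; linarith)
    rw [hv0] at h3
    have e : v y - α = (v y - xb) + (xb - α) := by ring
    rw [e]
    have h4 := abs_add_le (v y - xb) (xb - α)
    have h5 := hin y hy
    linarith
  have hα : |α - α| ≤ RA := by
    rw [sub_self, abs_zero]
    linarith
  set g : ℝ → ℝ := fun y => w (v y) - y with hg
  have hgc : ContinuousOn g (Icc (β - κ) (β + κ)) := by
    have hlip : LipschitzOnWith 2 g (Icc (β - κ) (β + κ)) := by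
      apply LipschitzOnWith.of_dist_le_mul
      intro x hx y hy
      rw [Real.dist_eq, Real.dist_eq]
      have h3 := hw2 _ _ ((hv x hx).trans hRA) ((hv y hy).trans hRA)
      have h4 := hv2 x y ((hin x hx).trans hRB) ((hin y hy).trans hRB)
      have e2 : g x - g y = (w (v x) - w (v y)) - (x - y) := by
        simp only [hg]; ring
      rw [e2]
      have h5 := abs_sub (w (v x) - w (v y)) (x - y)
      have h6 := abs_nonneg (x - y)
      have e3 : ((2 : NNReal) : ℝ) = 2 := rfl
      rw [e3]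
      linarith
    exact hlip.continuousOn
  have hgb : ∀ y ∈ Icc (β - κ) (β + κ), |g y - (β - y)| ≤ κ := by
    intro y hy
    have h3 := hw2 _ _ ((hv y hy).trans hRA) hα
    rw [hw0] at h3
    have h4 := hv y hy
    have e2 : g y - (β - y) = (w (v y) - ya) + (ya - β) := by
      simp only [hg]; ring
    rw [e2]
    have h5 := abs_add_le (w (v y) - ya) (ya - β)
    linarith
  have hg1 := hgb (β - κ) ⟨le_rfl, by linarith⟩
  have hg2 := hgb (β + κ) ⟨by linarith, le_rfl⟩
  rw [abs_le] at hg1 hg2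
  have h0 : (0:ℝ) ∈ Icc (g (β + κ)) (g (β - κ)) := ⟨by linarith, by linarith⟩
  obtain ⟨y, hy, hy0⟩ := intermediate_value_Icc' (by linarith : β - κ ≤ β + κ) hgc h0
  have hy1 : w (v y) = y := by
    have : w (v y) - y = 0 := hy0
    linarith
  refine ⟨v y, y, hv y hy, hin y hy, ⟨w, hy1, ?_, ?_⟩, ⟨v, rfl, ?_, ?_⟩⟩
  · intro x hx
    apply hw1
    have e : x - α = (x - v y) + (v y - α) := by ring
    rw [e]
    have := abs_add_le (x - v y) (v y - α)
    have := hv y hy
    linarith
  · intro x x' hx hx'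
    have key : ∀ z, |z - v y| ≤ RA - (r1 + κ / 8) → |z - α| ≤ RA := by
      intro z hz
      have e : z - α = (z - v y) + (v y - α) := by ring
      rw [e]
      have := abs_add_le (z - v y) (v y - α)
      have := hv y hy
      linarith
    exact hw2 x x' (key x hx) (key x' hx')
  · intro x hx
    apply hv1
    have e : x - β = (x - y) + (y - β) := by ring
    rw [e]
    have := abs_add_le (x - y) (y - β)
    have := hin y hy
    linarith
  · intro x x' hx hx'
    have key : ∀ z, |z - y| ≤ RB - κ → |z - β| ≤ RB := by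
      intro z hz
      have e : z - β = (z - y) + (y - β) := by ring
      rw [e]
      have := abs_add_le (z - y) (y - β)
      have := hin y hy
      linarith
    exact hv2 x x' (key x hx) (key x' hx')

/-- a full horizontal and a full vertical curve meet -/
theorem meet3 {A B : Set T2} (hA : HasCurve A) (hB : HasCurve B) :
    ∃ x0 y0, LC A x0 y0 (3 / 8) ∧ LC B y0 x0 (3 / 8) := by
  obtain ⟨α, w, hw1, hw2⟩ := hA
  obtain ⟨β, v, hv1, hv2⟩ := hB
  have key : ∀ γ x : ℝ, |x - γ| ≤ 1 → x ∈ Icc (γ - 1) (γ + 1) := by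
    intro γ x hx
    rw [abs_le] at hx
    constructor <;> linarith
  have h1 : LC A α (w α) 1 := ⟨w, rfl, fun x hx => hw1 x (key α x hx), fun x y hx hy =>
    hw2 x (key α x hx) y (key α y hy)⟩
  have h2 : LC B β (v β) 1 := ⟨v, rfl, fun x hx => hv1 x (key β x hx), fun x y hx hy =>
    hv2 x (key β x hx) y (key β y hy)⟩
  set i : ℤ := round (v β - α) with hi
  set j : ℤ := round (β - w α) with hj
  have hi1 : |v β - α - i| ≤ 1 / 2 := abs_sub_round _
  have hj1 : |β - w α - j| ≤ 1 / 2 := abs_sub_round _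
  have h3 := h1.translate (-i) (-j)
  obtain ⟨x0, y0, _, _, h4, h5⟩ := cross_LC (r1 := 1 / 2) (r2 := 1 / 2) (κ := 4 / 7) h3 h2
    (by
      have e : v β - (α - ((-i : ℤ) : ℝ)) = v β - α - i := by push_cast; ring
      rw [e]; exact hi1)
    (by
      have e : w α - ((-j : ℤ) : ℝ) - β = -(β - w α - j) := by push_cast; ring
      rw [e, abs_neg]; exact hj1)
    (by norm_num) (by norm_num) (by norm_num)
  exact ⟨x0, y0, h4.shrink (by norm_num), h5.shrink (by norm_num)⟩

/-- the crossing of the image of a short segment, parametrized -/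
theorem cross_param {a : ℝ} {b : ℕ → ℝ} (hb : ∀ k, 16 ≤ b k) {s t : ℝ} {n : ℕ}
    (hs : Strong a b s n t) : ∃ τ : ℝ → ℝ,
      ∀ x ∈ Icc (X a s (n + 1) t - 1) (X a s (n + 1) t + 1), X a s (n + 1) (τ x) = x ∧
        |τ x - t| ≤ rem b n 1 ∧
        (∀ y ∈ Icc (X a s (n + 1) t - 1) (X a s (n + 1) t + 1), ∀ k ≤ n + 1,
          |X a s k (τ x) - X a s k (τ y)| ≤ rem b n k * |x - y|) ∧
        ∀ k ≤ n + 1, |X a s k (τ x) - X a s k t| ≤ rem b n k * |x - X a s (n + 1) t| := by
  obtain ⟨c, hc1, hc2, hc3, hc4⟩ := left hb hs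
  obtain ⟨d, hd1, hd2, hd3, hd4⟩ := right hb hs
  have hcd : c ≤ d := hc2.trans hd1
  have hgood : ∀ v ∈ Icc c d, GoodB a b s n v := by
    intro v hv
    rcases le_total v t with h | h
    · exact hc3 v ⟨hv.1, h⟩
    · exact hd3 v ⟨h, hv.2⟩
  set Y : ℝ → ℝ := X a s (n + 1) with hY
  have hne : Y c ≠ Y d := by
    intro he
    have h1 := time_incr hb hcd hgood
    rw [← hY, he, sub_self, abs_zero, mul_zero] at h1
    have h2 : d = c := by
      have := abs_nonneg (d - c)
      have h3 : |d - c| = 0 := le_antisymm h1 this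
      rw [abs_eq_zero] at h3
      linarith
    have h3 : t = c := by linarith
    rw [h3, sub_self, abs_zero] at hc4
    norm_num at hc4
  have hsub : Icc (Y t - 1) (Y t + 1) ⊆ Y '' Icc c d := by
    have h1 := intermediate_value_uIcc (a := c) (b := d) (f := Y)
      (Xt_cont a s (n + 1)).continuousOn
    rw [uIcc_of_le hcd] at h1
    refine subset_trans ?_ h1
    have hc5 : Y c - Y t = 1 ∨ Y c - Y t = -1 := (abs_eq zero_le_one).1 hc4
    have hd5 : Y d - Y t = 1 ∨ Y d - Y t = -1 := (abs_eq zero_le_one).1 hd4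
    rcases hc5 with h5 | h5 <;> rcases hd5 with h6 | h6
    · exact absurd (by linarith) hne
    · have e1 : Y c = Y t + 1 := by linarith
      have e2 : Y d = Y t - 1 := by linarith
      rw [e1, e2, uIcc_of_ge (by linarith)]
    · have e1 : Y c = Y t - 1 := by linarith
      have e2 : Y d = Y t + 1 := by linarith
      rw [e1, e2, uIcc_of_le (by linarith)]
    · exact absurd (by linarith) hne
  have hsub' : ∀ x ∈ Icc (Y t - 1) (Y t + 1), ∃ u, u ∈ Icc c d ∧ Y u = x :=
    fun x hx => hsub hx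
  choose! τ hτ using hsub'
  have hinc : ∀ u ∈ Icc c d, ∀ v ∈ Icc c d, ∀ k ≤ n + 1,
      |X a s k u - X a s k v| ≤ rem b n k * |Y u - Y v| := by
    intro u hu v hv k hk
    rcases le_total u v with h | h
    · rw [abs_sub_comm, abs_sub_comm (Y u)]
      exact X_incr hb h (fun z hz => hgood z ⟨hu.1.trans hz.1, hz.2.trans hv.2⟩) hk
    · exact X_incr hb h (fun z hz => hgood z ⟨hv.1.trans hz.1, hz.2.trans hu.2⟩) hk
  refine ⟨τ, fun x hx => ⟨(hτ x hx).2, ?_, fun y hy k hk => ?_, fun k hk => ?_⟩⟩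
  · have h1 := (hτ x hx).1
    rw [abs_le]
    constructor <;> linarith [h1.1, h1.2]
  · have h1 := hinc _ (hτ x hx).1 _ (hτ y hy).1 k hk
    rwa [(hτ x hx).2, (hτ y hy).2] at h1
  · have h1 := hinc _ (hτ x hx).1 t ⟨hc2, hd1⟩ k hk
    rwa [(hτ x hx).2] at h1

/-- the points of the horizontal segment whose orbit is close to the orbit of `(t, s)` -/
def seg2 (a : ℝ) (b : ℕ → ℝ) (s t : ℝ) (n : ℕ) : Set T2 := {p | ∃ u : ℝ, |u - t| ≤ rem b n 1 ∧
  (∀ k ≤ n + 1, |X a s k u - X a s k t| ≤ 9 / 16 * rem b n k) ∧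
  ((u : UnitAddCircle), (s : UnitAddCircle)) = p}

theorem LC_seg2 {a : ℝ} {b : ℕ → ℝ} (hb : ∀ k, 16 ≤ b k) {s t : ℝ} {n : ℕ}
    (hs : Strong a b s n t) :
    ∃ y, LC ((S a)^[n] '' seg2 a b s t n) (round (X a s (n + 1) t) : ℤ) y (1 / 16) := by
  obtain ⟨τ, hτ⟩ := cross_param hb hs
  set Y : ℝ := X a s (n + 1) t with hY
  have hc : |Y - (round Y : ℤ)| ≤ 1 / 2 := abs_sub_round Y
  have hin : ∀ x : ℝ, |x - ((round Y : ℤ) : ℝ)| ≤ 1 / 16 → |x - Y| ≤ 9 / 16 := by
    intro x hx
    rw [abs_le] at hx hc ⊢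
    constructor <;> linarith
  have hin' : ∀ x : ℝ, |x - ((round Y : ℤ) : ℝ)| ≤ 1 / 16 → x ∈ Icc (Y - 1) (Y + 1) := by
    intro x hx
    have := hin x hx
    rw [abs_le] at this
    constructor <;> linarith
  refine ⟨_, fun x => X a s n (τ x), rfl, fun x hx => ?_, fun x y hx hy => ?_⟩
  · obtain ⟨h1, h2, _, h3⟩ := hτ x (hin' x hx)
    refine ⟨((τ x : UnitAddCircle), (s : UnitAddCircle)), ⟨τ x, h2, fun k hk => ?_, rfl⟩, ?_⟩
    · refine (h3 k hk).trans ?_
      have h4 := rem_pos hb n k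
      have h5 := hin x hx
      nlinarith
    · rw [iter_coe, h1]
  · obtain ⟨_, _, h3, _⟩ := hτ x (hin' x hx)
    have h4 := h3 y (hin' y hy) n (by omega)
    rw [rem_succ b le_rfl, rem_last, mul_one] at h4
    refine h4.trans (mul_le_mul_of_nonneg_right ?_ (abs_nonneg _))
    have := hb n
    rw [div_le_div_iff₀ (by linarith) (by norm_num)]
    linarith

/-- **the local stable leaf near a good point** -/
theorem leaf {a : ℝ} (ha : 256 ≤ |a|) {b : ℕ → ℝ} (hb : ∀ k, 16 ≤ b k) {s t : ℝ} {n : ℕ}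
    (hs : Strong a b s n t) {h : ℝ} (hh : 0 ≤ h) (hh1 : h * (1 / 8) ^ (n + 1) ≤ 1 / 10)
    (room : ∀ k, 1 ≤ k → k ≤ n → ∀ y, |y - X a s k t| ≤ 9 / 16 * rem b n k + h * (1 / 8) ^ k →
      16 < |L a y|) :
    ∃ x1, |x1 - t| ≤ rem b n 1 ∧ LC (Gu a) s x1 h := by
  obtain ⟨yc, h1⟩ := LC_seg2 hb hs
  set c : ℤ := round (X a s (n + 1) t) with hc
  have h2 := h1.push (a := a) (l := 16) (by norm_num) (by norm_num) (fun x hx => by
    have := L_near ha (c := c) (x := x) (hx.trans (by norm_num))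
    linarith)
  rw [image_succ] at h2
  set xc : ℝ := 2 * (c:ℝ) - yc + a * sin (2 * π * c) with hxc
  set i : ℤ := round xc with hi
  have hi1 : |xc - i| ≤ 1 / 2 := abs_sub_round xc
  have h3 := (LC_zero ha).translate (-c) (-i)
  obtain ⟨x0, y0, _, h4, h5, h6⟩ := cross_LC (r1 := 1 / 2) (r2 := 0) (κ := 4 / 63) h2 h3
    (by
      have e : 0 - ((-i : ℤ) : ℝ) - xc = -(xc - i) := by push_cast; ring
      rw [e, abs_neg]; exact hi1)
    (by
      have e : (c : ℝ) - (0 - ((-c : ℤ) : ℝ)) = 0 := by push_cast; ring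
      rw [e, abs_zero])
    (by norm_num) (by norm_num) (by norm_num)
  have e0 : (0:ℝ) - ((-c : ℤ) : ℝ) = c := by push_cast; ring
  rw [e0] at h4
  have h7 := h5.mem (by norm_num)
  obtain ⟨p, ⟨u, hu1, hu2, rfl⟩, hu3⟩ := h7
  rw [iter_coe] at hu3
  have h8 : pr (y0, x0) = pr (X a s (n + 1) u, X a s (n + 1 + 1) u) := by
    unfold pr
    rw [Prod.mk.injEq] at hu3 ⊢
    exact ⟨hu3.2.symm, hu3.1.symm⟩
  obtain ⟨k1, k2, hk⟩ := pr_eq h8
  rw [Prod.mk_sub_mk, Prod.mk.injEq] at hk
  have h9 := (h6.shrink (by norm_num : (1:ℝ) / 10 ≤ 1 / 6 - 4 / 63)).translate k1 k2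
  rw [← hk.1, ← hk.2] at h9
  -- the last point is near an integer
  have h10 : ∀ y, |y - X a s (n + 1) u| ≤ 1 / 10 → 700 ≤ |L a y| := by
    intro y hy
    apply L_near ha (c := c - k1)
    rw [hk.1] at hy
    push_cast
    rw [abs_le] at hy h4 ⊢
    constructor <;> linarith
  -- pulling back
  have h11 : ∀ j k, k + j = n + 1 →
      LC (Gu a) (X a s k u) (X a s (k + 1) u) (h * (1 / 8) ^ k) := by
    intro j
    induction j with
    | zero =>
      intro k hk
      rw [add_zero] at hk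
      rw [hk]
      exact h9.shrink hh1
    | succ j ih =>
      intro k hk
      have h12 := ih (k + 1) (by omega)
      have h13 : LC (univ ∩ Gu a) (X a s (k + 1) u) (X a s (k + 1 + 1) u)
          (h * (1 / 8) ^ (k + 1)) := h12.mono (fun x hx => ⟨mem_univ _, hx⟩)
      have h14 := h13.pushG (a := a) (l := 8) le_rfl (by positivity) (fun x hx => by
        rcases Nat.lt_or_ge n (k + 1) with h15 | h15
        · have e : k = n := by omega
          subst e
          have := h10 x (hx.trans hh1)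
          constructor <;> linarith
        · have := room (k + 1) (by omega) h15 x (by
            have h16 := hu2 (k + 1) (by omega)
            have e : x - X a s (k + 1) t = (x - X a s (k + 1) u) +
              (X a s (k + 1) u - X a s (k + 1) t) := by ring
            rw [e]
            refine (abs_add_le _ _).trans ?_
            linarith)
          exact ⟨by linarith, this⟩)
      have e1 : 2 * X a s (k + 1) u - X a s (k + 1 + 1) u +
          a * sin (2 * π * X a s (k + 1) u) = X a s k u := by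
        have := X_rec a s u k
        rw [show k + 1 + 1 = k + 2 from rfl]
        linarith
      have e2 : 8 * (h * (1 / 8) ^ (k + 1)) = h * (1 / 8) ^ k := by
        rw [pow_succ]; ring
      rw [e1, e2] at h14
      exact h14.mono inter_subset_right
  have h12 := h11 (n + 1) 0 (by omega)
  rw [pow_zero, mul_one] at h12
  exact ⟨u, hu1, h12⟩

end Pool.Agent.N317.SM
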