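import Pool.Agent.Y332.SM.Fin

set_option autoImplicit false

/-!
# Invariant open sets of the standard map: islands and the large component
-/

namespace Pool.Agent.N317.SM

open Real MeasureTheory Function Set Filter Topology
open Pool.Agent.TH705.SM Pool.Agent.Y332.SM
open scoped ENNReal

/-- the covering map -/
noncomputable def pr (p : ℝ × ℝ) : T2 := ((p.1 : UnitAddCircle), (p.2 : UnitAddCircle))

theorem pr_cont : Continuous pr :=
  ((AddCircle.continuous_mk' 1).comp continuous_fst).prodMk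
    ((AddCircle.continuous_mk' 1).comp continuous_snd)

theorem pr_open : IsOpenMap pr := by
  have h : IsOpenMap (fun x : ℝ => (x : UnitAddCircle)) := QuotientAddGroup.isOpenMap_coe
  exact h.prodMap h

theorem pr_sub (x : ℝ × ℝ) (k l : ℤ) : pr (x - ((k : ℝ), (l : ℝ))) = pr x := by
  unfold pr
  rw [Prod.fst_sub, Prod.snd_sub, coe_sub_int, coe_sub_int]

theorem pr_eq {x y : ℝ × ℝ} (h : pr x = pr y) : ∃ k l : ℤ, y = x - ((k : ℝ), (l : ℝ)) := by
  unfold pr at h
  rw [Prod.mk.injEq] at h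
  obtain ⟨h1, h2⟩ := h
  have key : ∀ u v : ℝ, (u : UnitAddCircle) = (v : UnitAddCircle) → ∃ k : ℤ, v = u - k := by
    intro u v huv
    have h3 : ((u - v : ℝ) : UnitAddCircle) = 0 := by
      rw [AddCircle.coe_sub, huv, sub_self]
    rw [AddCircle.coe_eq_zero_iff] at h3
    obtain ⟨k, hk⟩ := h3
    refine ⟨k, ?_⟩
    rw [zsmul_eq_mul, mul_one] at hk
    linarith
  obtain ⟨k, hk⟩ := key _ _ h1
  obtain ⟨l, hl⟩ := key _ _ h2
  exact ⟨k, l, Prod.ext hk hl⟩

/-- a curve in `B` which is a graph over an interval of length four, of small slope -/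
def Long (B : Set T2) : Prop := ∃ (α : ℝ) (w : ℝ → ℝ),
  (∀ x ∈ Icc (α - 2) (α + 2), ((x : UnitAddCircle), (w x : UnitAddCircle)) ∈ B) ∧
  ∀ x ∈ Icc (α - 2) (α + 2), ∀ y ∈ Icc (α - 2) (α + 2), |w x - w y| ≤ 1 / 8 * |x - y|

theorem Long.mono {B C : Set T2} (h : Long B) (hBC : B ⊆ C) : Long C := by
  obtain ⟨α, w, h1, h2⟩ := h
  exact ⟨α, w, fun x hx => hBC (h1 x hx), h2⟩

theorem Long.hasCurve {B : Set T2} (h : Long B) : HasCurve B := by
  obtain ⟨α, w, h1, h2⟩ := h
  have h3 : ∀ x ∈ Icc (α - 1) (α + 1), x ∈ Icc (α - 2) (α + 2) := fun x hx =>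
    ⟨by linarith [hx.1], by linarith [hx.2]⟩
  exact ⟨α, w, fun x hx => h1 x (h3 x hx), fun x hx y hy => h2 x (h3 x hx) y (h3 y hy)⟩

theorem sin_exp0 {x y : ℝ} (hx : |x| ≤ 1 / 8) (hy : |y| ≤ 1 / 8) :
    2.8 * |x - y| ≤ |sin (2 * π * x) - sin (2 * π * y)| := by
  have hpi := pi_pos
  rw [abs_le] at hx hy
  rw [sin_sub_sin, abs_mul, abs_mul, abs_of_pos (by norm_num : (0:ℝ) < 2)]
  have e1 : (2 * π * x - 2 * π * y) / 2 = π * (x - y) := by ring
  have e2 : (2 * π * x + 2 * π * y) / 2 = π * (x + y) := by ring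
  rw [e1, e2]
  have h1 : 2 * |x - y| ≤ |sin (π * (x - y))| := by
    have h0 : |π * (x - y)| ≤ π / 2 := by
      rw [abs_le]
      constructor <;> nlinarith
    have h := mul_abs_le_abs_sin h0
    rw [abs_mul, abs_of_pos hpi] at h
    have e : 2 / π * (π * |x - y|) = 2 * |x - y| := by
      field_simp
    rw [e] at h
    exact h
  have h2 : 0.7 ≤ |cos (π * (x + y))| := by
    have h3 : cos (π / 4) ≤ cos |π * (x + y)| := by
      apply cos_le_cos_of_nonneg_of_le_pi (abs_nonneg _) (by linarith)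
      rw [abs_le]
      constructor <;> nlinarith
    rw [cos_abs, cos_pi_div_four] at h3
    have h4 : (1.4:ℝ) ≤ √2 := by
      apply Real.le_sqrt_of_sq_le
      norm_num
    exact le_trans (by linarith) (le_abs_self _)
  have h3 := abs_nonneg (x - y)
  nlinarith [abs_nonneg (sin (π * (x - y)))]

theorem sin_exp {c : ℤ} {x y : ℝ} (hx : |x - c| ≤ 1 / 8) (hy : |y - c| ≤ 1 / 8) :
    2.8 * |x - y| ≤ |sin (2 * π * x) - sin (2 * π * y)| := by
  have h := sin_exp0 hx hy
  have e : ∀ z : ℝ, sin (2 * π * (z - c)) = sin (2 * π * z) := by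
    intro z
    have : 2 * π * (z - c) = 2 * π * z - c * (2 * π) := by ring
    rw [this, sin_sub_int_mul_two_pi]
  rw [e, e] at h
  have e2 : x - c - (y - c) = x - y := by ring
  rwa [e2] at h

/-- the image of a horizontal curve contains a long horizontal curve -/
theorem long_S {a : ℝ} (ha : 256 ≤ |a|) {B : Set T2} (h : HasCurve B) : Long (S a '' B) := by
  obtain ⟨α, w, hw1, hw2⟩ := h
  set c : ℤ := round α with hc
  have hc1 : |α - c| ≤ 1 / 2 := abs_sub_round α
  rw [abs_le] at hc1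
  set g : ℝ → ℝ := fun x => 2 * x - w x + a * sin (2 * π * x) with hg
  set l : ℝ := c - 1 / 8 with hl
  set r : ℝ := c + 1 / 8 with hr
  have hlr : l ≤ r := by linarith
  have hsub : ∀ x ∈ Icc l r, x ∈ Icc (α - 1) (α + 1) := fun x hx =>
    ⟨by linarith [hx.1], by linarith [hx.2]⟩
  have hexp : ∀ x ∈ Icc l r, ∀ y ∈ Icc l r, 16 * |x - y| ≤ |g x - g y| := by
    intro x hx y hy
    have h1 := sin_exp (c := c) (x := x) (y := y)
      (by rw [abs_le]; constructor <;> linarith [hx.1, hx.2])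
      (by rw [abs_le]; constructor <;> linarith [hy.1, hy.2])
    have h2 := hw2 x (hsub x hx) y (hsub y hy)
    have e : g x - g y = a * (sin (2 * π * x) - sin (2 * π * y)) -
        ((w x - w y) - 2 * (x - y)) := by
      simp only [hg]; ring
    have h3 := abs_sub_abs_le_abs_sub (a * (sin (2 * π * x) - sin (2 * π * y)))
      ((w x - w y) - 2 * (x - y))
    rw [← e, abs_mul] at h3
    have h4 := abs_sub (w x - w y) (2 * (x - y))
    rw [abs_mul 2, abs_of_pos (by norm_num : (0:ℝ) < 2)] at h4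
    have h5 := abs_nonneg (x - y)
    have h6 : 256 * (2.8 * |x - y|) ≤ |a| * |sin (2 * π * x) - sin (2 * π * y)| :=
      mul_le_mul ha h1 (by positivity) (by positivity)
    linarith
  have hgc : ContinuousOn g (Icc l r) := by
    have hw : ContinuousOn w (Icc l r) := by
      have hlip : LipschitzOnWith 1 w (Icc l r) := by
        apply LipschitzOnWith.of_dist_le_mul
        intro x hx y hy
        rw [Real.dist_eq, Real.dist_eq]
        have h3 := hw2 x (hsub x hx) y (hsub y hy)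
        have h4 := abs_nonneg (x - y)
        rw [NNReal.coe_one]
        linarith
      exact hlip.continuousOn
    have h2 : Continuous (fun x : ℝ => 2 * x) := by fun_prop
    have h3 : Continuous (fun x : ℝ => a * sin (2 * π * x)) := by fun_prop
    exact (h2.continuousOn.sub hw).add h3.continuousOn
  have hdiff : 4 ≤ |g r - g l| := by
    have h1 := hexp r (right_mem_Icc.2 hlr) l (left_mem_Icc.2 hlr)
    have e : r - l = 1 / 4 := by rw [hl, hr]; ring
    rw [e, abs_of_pos (by norm_num : (0:ℝ) < 1 / 4)] at h1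
    linarith
  set β : ℝ := (g l + g r) / 2 with hβ
  have hsub' : Icc (β - 2) (β + 2) ⊆ g '' Icc l r := by
    have h1 := intermediate_value_uIcc (a := l) (b := r) (f := g)
      (by rw [uIcc_of_le hlr]; exact hgc)
    rw [uIcc_of_le hlr] at h1
    refine subset_trans ?_ h1
    rcases le_total (g l) (g r) with h | h
    · rw [uIcc_of_le h]
      rw [abs_of_nonneg (by linarith)] at hdiff
      exact Icc_subset_Icc (by linarith) (by linarith)
    · rw [uIcc_of_ge h]
      rw [abs_of_nonpos (by linarith)] at hdiff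
      exact Icc_subset_Icc (by linarith) (by linarith)
  have hsub'' : ∀ y ∈ Icc (β - 2) (β + 2), ∃ x, x ∈ Icc l r ∧ g x = y := fun y hy => hsub' hy
  choose! τ hτ using hsub''
  refine ⟨β, τ, ?_, ?_⟩
  · intro y hy
    obtain ⟨h1, h2⟩ := hτ y hy
    refine ⟨_, hw1 (τ y) (hsub _ h1), ?_⟩
    rw [S_coe]
    have h3 : 2 * τ y - w (τ y) + a * sin (2 * π * τ y) = y := h2
    rw [h3]
  · intro x hx y hy
    have h1 := hexp (τ x) (hτ x hx).1 (τ y) (hτ y hy).1
    rw [(hτ x hx).2, (hτ y hy).2] at h1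
    have h2 := abs_nonneg (x - y)
    linarith

/-- the preimage of a vertical curve contains a long vertical curve -/
theorem long_Si {a : ℝ} (ha : 256 ≤ |a|) {B : Set T2} (h : HasCurve (Prod.swap ⁻¹' B)) :
    Long (Prod.swap ⁻¹' (Si a '' B)) := by
  refine (long_S ha h).mono ?_
  rintro _ ⟨p, hp, rfl⟩
  refine ⟨Prod.swap p, hp, ?_⟩
  rw [swap_S]

/-- a horizontal and a vertical curve meet, with some freedom for the translation -/
theorem meet2 {α β : ℝ} {w v : ℝ → ℝ}
    (hw2 : ∀ x ∈ Icc (α - 2) (α + 2), ∀ y ∈ Icc (α - 2) (α + 2),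
      |w x - w y| ≤ 1 / 8 * |x - y|)
    (hv2 : ∀ x ∈ Icc (β - 2) (β + 2), ∀ y ∈ Icc (β - 2) (β + 2),
      |v x - v y| ≤ 1 / 8 * |x - y|)
    {i j : ℝ} (hi : |v β - α - i| ≤ 3 / 2) (hj : |β - w α - j| ≤ 3 / 2) :
    ∃ y ∈ Icc (β - 2) (β + 2), v y - i ∈ Icc (α - 2) (α + 2) ∧ w (v y - i) = y - j := by
  rw [abs_le] at hi hj
  have hβ : β ∈ Icc (β - 2) (β + 2) := ⟨by linarith, by linarith⟩
  have hα : α ∈ Icc (α - 2) (α + 2) := ⟨by linarith, by linarith⟩
  have hx : ∀ y ∈ Icc (β - 2) (β + 2), |v y - i - α| ≤ 7 / 4 := by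
    intro y hy
    have h3 := hv2 y hy β hβ
    have h4 : |y - β| ≤ 2 := by
      rw [abs_le]
      constructor <;> linarith [hy.1, hy.2]
    have h5 : |v y - v β| ≤ 1 / 4 := by linarith
    rw [abs_le] at h5 ⊢
    constructor <;> linarith
  have hx' : ∀ y ∈ Icc (β - 2) (β + 2), v y - i ∈ Icc (α - 2) (α + 2) := by
    intro y hy
    have := hx y hy
    rw [abs_le] at this
    constructor <;> linarith
  set g : ℝ → ℝ := fun y => w (v y - i) + j - y with hg
  have hgc : ContinuousOn g (Icc (β - 2) (β + 2)) := by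
    have hlip : LipschitzOnWith 2 g (Icc (β - 2) (β + 2)) := by
      apply LipschitzOnWith.of_dist_le_mul
      intro x hx1 y hy1
      rw [Real.dist_eq, Real.dist_eq]
      have h3 := hw2 _ (hx' x hx1) _ (hx' y hy1)
      have h4 := hv2 x hx1 y hy1
      have e1 : v x - i - (v y - i) = v x - v y := by ring
      rw [e1] at h3
      have e2 : g x - g y = (w (v x - i) - w (v y - i)) - (x - y) := by
        simp only [hg]; ring
      rw [e2]
      have h5 := abs_sub (w (v x - i) - w (v y - i)) (x - y)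
      have h6 := abs_nonneg (x - y)
      have e3 : ((2 : NNReal) : ℝ) = 2 := rfl
      rw [e3]
      linarith
    exact hlip.continuousOn
  have hgb : ∀ y ∈ Icc (β - 2) (β + 2), |g y - (β - y)| ≤ 55 / 32 := by
    intro y hy
    have h3 := hw2 _ (hx' y hy) α hα
    have h4 := hx y hy
    have h5 : |w (v y - i) - w α| ≤ 1 / 8 * (7 / 4) := by linarith
    have e2 : g y - (β - y) = (w (v y - i) - w α) - (β - w α - j) := by
      simp only [hg]; ring
    rw [e2]
    rw [abs_le] at h5 ⊢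
    constructor <;> linarith
  have hg1 := hgb (β - 2) ⟨le_rfl, by linarith⟩
  have hg2 := hgb (β + 2) ⟨by linarith, le_rfl⟩
  rw [abs_le] at hg1 hg2
  have h0 : (0:ℝ) ∈ Icc (g (β + 2)) (g (β - 2)) := ⟨by linarith, by linarith⟩
  obtain ⟨y, hy, hy0⟩ := intermediate_value_Icc' (by linarith : β - 2 ≤ β + 2) hgc h0
  refine ⟨y, hy, hx' y hy, ?_⟩
  have : w (v y - i) + j - y = 0 := hy0
  linarith

end Pool.Agent.N317.SM
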