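import Pool.Agent.N317.SM.Struct

set_option autoImplicit false

/-!
# Local curves and the invariant manifolds of the fixed point of the standard map
-/

namespace Pool.Agent.N317.SM

open Real MeasureTheory Function Set Filter Topology
open Pool.Agent.TH705.SM Pool.Agent.Y332.SM
open scoped ENNReal

/-- the points with a good future which are asymptotic to the fixed point -/
def Gs (a : ℝ) : Set T2 := {p | (∀ j : ℕ, 16 < |Lc a (((S a)^[j] p).1)|) ∧
  Tendsto (fun j => (S a)^[j] p) atTop (𝓝 (0, 0))}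

/-- the points with a good past which are asymptotic to the fixed point in the past -/
def Gu (a : ℝ) : Set T2 := Prod.swap ⁻¹' Gs a

theorem Gs_S {a : ℝ} {p : T2} (hp : p ∈ Gs a) : S a p ∈ Gs a := by
  obtain ⟨h1, h2⟩ := hp
  refine ⟨fun j => ?_, ?_⟩
  · have := h1 (j + 1)
    rwa [iterate_succ_apply] at this
  · have := (tendsto_add_atTop_iff_nat 1).2 h2
    simpa only [iterate_succ_apply] using this

theorem Gs_of_S {a : ℝ} {p : T2} (hp : S a p ∈ Gs a) (h0 : 16 < |Lc a p.1|) : p ∈ Gs a := by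
  obtain ⟨h1, h2⟩ := hp
  refine ⟨fun j => ?_, ?_⟩
  · rcases j with _ | j
    · exact h0
    · rw [iterate_succ_apply]
      exact h1 j
  · rw [← tendsto_add_atTop_iff_nat 1]
    simpa only [iterate_succ_apply] using h2

theorem Gu_S {a : ℝ} {p : T2} (hp : p ∈ Gu a) (h0 : 16 < |Lc a p.1|) : S a p ∈ Gu a := by
  show Prod.swap (S a p) ∈ Gs a
  rw [swap_S]
  apply Gs_of_S
  · rw [S_Si]
    exact hp
  · exact h0

theorem Gu_good {a : ℝ} {p : T2} (hp : p ∈ Gu a) : 16 < |Lc a p.2| := hp.1 0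

/-- a local horizontal curve in `A` around the point `(x0, y0)` -/
def LC (A : Set T2) (x0 y0 ρ : ℝ) : Prop := ∃ w : ℝ → ℝ, w x0 = y0 ∧
  (∀ x, |x - x0| ≤ ρ → ((x : UnitAddCircle), (w x : UnitAddCircle)) ∈ A) ∧
  ∀ x y, |x - x0| ≤ ρ → |y - x0| ≤ ρ → |w x - w y| ≤ 1 / 8 * |x - y|

theorem LC.mono {A B : Set T2} {x0 y0 ρ : ℝ} (h : LC A x0 y0 ρ) (hAB : A ⊆ B) :
    LC B x0 y0 ρ := by
  obtain ⟨w, h0, h1, h2⟩ := h
  exact ⟨w, h0, fun x hx => hAB (h1 x hx), h2⟩

theorem LC.shrink {A : Set T2} {x0 y0 ρ ρ' : ℝ} (h : LC A x0 y0 ρ) (hρ : ρ' ≤ ρ) :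
    LC A x0 y0 ρ' := by
  obtain ⟨w, h0, h1, h2⟩ := h
  exact ⟨w, h0, fun x hx => h1 x (hx.trans hρ), fun x y hx hy => h2 x y (hx.trans hρ) (hy.trans hρ)⟩

theorem LC.mem {A : Set T2} {x0 y0 ρ : ℝ} (hρ : 0 ≤ ρ) (h : LC A x0 y0 ρ) :
    ((x0 : UnitAddCircle), (y0 : UnitAddCircle)) ∈ A := by
  obtain ⟨w, h0, h1, _⟩ := h
  have := h1 x0 (by simpa using hρ)
  rwa [h0] at this

theorem LC.translate {A : Set T2} {x0 y0 ρ : ℝ} (h : LC A x0 y0 ρ) (i j : ℤ) :
    LC A (x0 - i) (y0 - j) ρ := by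
  obtain ⟨w, h0, h1, h2⟩ := h
  refine ⟨fun x => w (x + i) - j, by simp [h0], fun x hx => ?_, fun x y hx hy => ?_⟩
  · have h3 := h1 (x + i) (by
      have : x + i - x0 = x - (x0 - i) := by ring
      rwa [this])
    rw [coe_sub_int]
    have e : x = (x + i) - i := by ring
    rw [e, coe_sub_int]
    have e2 : x + i - i + i = x + i := by ring
    rw [e2]
    exact h3
  · have h3 := h2 (x + i) (y + i) (by
      have : x + i - x0 = x - (x0 - i) := by ring
      rwa [this]) (by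
      have : y + i - x0 = y - (x0 - i) := by ring
      rwa [this])
    have e1 : w (x + i) - j - (w (y + i) - j) = w (x + i) - w (y + i) := by ring
    have e2 : x + i - (y + i) = x - y := by ring
    rw [e1]
    rwa [e2] at h3

theorem LC.hasCurve {A : Set T2} {x0 y0 ρ : ℝ} (hρ : 1 ≤ ρ) (h : LC A x0 y0 ρ) : HasCurve A := by
  obtain ⟨w, _, h1, h2⟩ := h
  have key : ∀ x ∈ Icc (x0 - 1) (x0 + 1), |x - x0| ≤ ρ := fun x hx => by
    rw [abs_le]
    constructor <;> linarith [hx.1, hx.2]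
  exact ⟨x0, w, fun x hx => h1 x (key x hx), fun x hx y hy => h2 x y (key x hx) (key y hy)⟩

theorem hasDeriv_G (a x : ℝ) : HasDerivAt (fun x => 2 * x + a * sin (2 * π * x)) (L a x) x := by
  have h1 : HasDerivAt (fun x : ℝ => 2 * x) 2 x := by
    simpa using (hasDerivAt_id x).const_mul 2
  have h2 : HasDerivAt (fun x : ℝ => 2 * π * x) (2 * π) x := by
    simpa using (hasDerivAt_id x).const_mul (2 * π)
  have h3 := (h2.sin.const_mul a)
  have h4 := h1.add h3
  exact h4.congr_deriv (by unfold L; ring)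

/-- monotonicity of `G x = 2 x + a sin 2 π x` where `|L|` is large -/
theorem G_mono {a l : ℝ} (hl : 0 < l) {c d : ℝ} (hL : ∀ x ∈ Icc c d, l ≤ |L a x|) :
    ∃ σ : ℝ, (σ = 1 ∨ σ = -1) ∧ ∀ x ∈ Icc c d, ∀ y ∈ Icc c d, x ≤ y →
      l * (y - x) ≤ σ * ((2 * y + a * sin (2 * π * y)) - (2 * x + a * sin (2 * π * x))) := by
  have hsign : (∀ x ∈ Icc c d, 0 < L a x) ∨ (∀ x ∈ Icc c d, L a x < 0) := by
    by_contra hcon
    rw [not_or] at hcon
    obtain ⟨h1, h2⟩ := hcon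
    push Not at h1 h2
    obtain ⟨x, hx, hx'⟩ := h1
    obtain ⟨y, hy, hy'⟩ := h2
    have h3 := isPreconnected_Icc.intermediate_value (s := Icc c d) hx hy (L_cont a).continuousOn
    obtain ⟨z, hz, hz'⟩ := h3 (show (0:ℝ) ∈ Icc (L a x) (L a y) from ⟨hx', hy'⟩)
    have := hL z hz
    rw [hz', abs_zero] at this
    linarith
  have hint : interior (Icc c d) ⊆ Icc c d := interior_subset
  rcases hsign with h | h
  · refine ⟨1, Or.inl rfl, fun x hx y hy hxy => ?_⟩
    have h1 := (convex_Icc c d).mul_sub_le_image_sub_of_le_deriv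
      (f := fun x => 2 * x + a * sin (2 * π * x))
      (fun x _ => (hasDeriv_G a x).continuousAt.continuousWithinAt)
      (fun x _ => (hasDeriv_G a x).differentiableAt.differentiableWithinAt) (C := l)
      (fun x hx => by
        rw [(hasDeriv_G a x).deriv]
        have h2 := hL x (hint hx)
        rwa [abs_of_pos (h x (hint hx))] at h2) x hx y hy hxy
    linarith
  · refine ⟨-1, Or.inr rfl, fun x hx y hy hxy => ?_⟩
    have h1 := (convex_Icc c d).mul_sub_le_image_sub_of_le_deriv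
      (f := fun x => -(2 * x + a * sin (2 * π * x)))
      (fun x _ => (hasDeriv_G a x).neg.continuousAt.continuousWithinAt)
      (fun x _ => (hasDeriv_G a x).neg.differentiableAt.differentiableWithinAt) (C := l)
      (fun x hx => by
        have h3 := (hasDeriv_G a x).neg.deriv
        have h2 := hL x (hint hx)
        rw [abs_of_neg (h x (hint hx))] at h2
        exact h2.trans (le_of_eq h3.symm)) x hx y hy hxy
    linarith

/-- the inverse branch of `x ↦ 2 x - w x + a sin 2 π x` -/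
theorem inv_branch {a l : ℝ} (hl : 8 ≤ l) {w : ℝ → ℝ} {x0 ρ : ℝ} (hρ : 0 ≤ ρ)
    (h2 : ∀ x y, |x - x0| ≤ ρ → |y - x0| ≤ ρ → |w x - w y| ≤ 1 / 8 * |x - y|)
    (hL : ∀ x, |x - x0| ≤ ρ → l + 1 ≤ |L a x|) :
    ∃ τ : ℝ → ℝ, τ (2 * x0 - w x0 + a * sin (2 * π * x0)) = x0 ∧
      (∀ y, |y - (2 * x0 - w x0 + a * sin (2 * π * x0))| ≤ l * ρ →
        |τ y - x0| ≤ ρ ∧ 2 * τ y - w (τ y) + a * sin (2 * π * τ y) = y) ∧
      ∀ x y, |x - (2 * x0 - w x0 + a * sin (2 * π * x0))| ≤ l * ρ →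
        |y - (2 * x0 - w x0 + a * sin (2 * π * x0))| ≤ l * ρ →
        |τ x - τ y| ≤ 1 / 8 * |x - y| := by
  have hI : ∀ x, x ∈ Icc (x0 - ρ) (x0 + ρ) ↔ |x - x0| ≤ ρ := by
    intro x
    rw [abs_le]
    constructor
    · intro hx; constructor <;> linarith [hx.1, hx.2]
    · intro hx; constructor <;> linarith [hx.1, hx.2]
  have hcd : x0 - ρ ≤ x0 + ρ := by linarith
  obtain ⟨σ, hσ, hG⟩ := G_mono (a := a) (l := l + 1) (by linarith)
    (fun x hx => hL x ((hI x).1 hx))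
  have hσ2 : σ * σ = 1 := by rcases hσ with rfl | rfl <;> norm_num
  have hσa : |σ| = 1 := by rcases hσ with rfl | rfl <;> norm_num
  set g : ℝ → ℝ := fun x => 2 * x - w x + a * sin (2 * π * x) with hg
  have hmono : ∀ x ∈ Icc (x0 - ρ) (x0 + ρ), ∀ y ∈ Icc (x0 - ρ) (x0 + ρ), x ≤ y →
      l * (y - x) ≤ σ * (g y - g x) := by
    intro x hx y hy hxy
    have h3 := hG x hx y hy hxy
    have h4 := h2 x y ((hI x).1 hx) ((hI y).1 hy)
    rw [abs_sub_comm x y, abs_of_nonneg (by linarith : 0 ≤ y - x)] at h4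
    have h5 : |σ * (w x - w y)| ≤ 1 / 8 * (y - x) := by
      rw [abs_mul, hσa, one_mul]
      exact h4
    rw [abs_le] at h5
    have e : σ * (g y - g x) = σ * ((2 * y + a * sin (2 * π * y)) -
        (2 * x + a * sin (2 * π * x))) + σ * (w x - w y) := by
      simp only [hg]; ring
    rw [e]
    have h6 : 0 ≤ y - x := by linarith
    nlinarith [h5.1]
  have hinj : ∀ x ∈ Icc (x0 - ρ) (x0 + ρ), ∀ y ∈ Icc (x0 - ρ) (x0 + ρ),
      l * |x - y| ≤ |g x - g y| := by
    intro x hx y hy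
    rcases le_total x y with h3 | h3
    · have h4 := hmono x hx y hy h3
      rw [abs_sub_comm x y, abs_of_nonneg (by linarith : 0 ≤ y - x), abs_sub_comm (g x)]
      refine h4.trans ((le_abs_self _).trans ?_)
      rw [abs_mul, hσa, one_mul]
    · have h4 := hmono y hy x hx h3
      rw [abs_of_nonneg (by linarith : 0 ≤ x - y)]
      refine h4.trans ((le_abs_self _).trans ?_)
      rw [abs_mul, hσa, one_mul]
  have hx0 : x0 ∈ Icc (x0 - ρ) (x0 + ρ) := ⟨by linarith, by linarith⟩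
  have hwc : ContinuousOn w (Icc (x0 - ρ) (x0 + ρ)) := by
    have hlip : LipschitzOnWith 1 w (Icc (x0 - ρ) (x0 + ρ)) := by
      apply LipschitzOnWith.of_dist_le_mul
      intro x hx y hy
      rw [Real.dist_eq, Real.dist_eq, NNReal.coe_one]
      have h3 := h2 x y ((hI x).1 hx) ((hI y).1 hy)
      have h4 := abs_nonneg (x - y)
      linarith
    exact hlip.continuousOn
  have hgc : ContinuousOn (fun x => σ * g x) (Icc (x0 - ρ) (x0 + ρ)) := by
    have h3 : Continuous (fun x : ℝ => 2 * x) := by fun_prop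
    have h4 : Continuous (fun x : ℝ => a * sin (2 * π * x)) := by fun_prop
    exact continuousOn_const.mul ((h3.continuousOn.sub hwc).add h4.continuousOn)
  have hsurj : ∀ y, |y - g x0| ≤ l * ρ → ∃ x, x ∈ Icc (x0 - ρ) (x0 + ρ) ∧ g x = y := by
    intro y hy
    have h3 := hmono x0 hx0 (x0 + ρ) (right_mem_Icc.2 hcd) (by linarith)
    have h4 := hmono (x0 - ρ) (left_mem_Icc.2 hcd) x0 hx0 (by linarith)
    have h5 : |σ * (y - g x0)| ≤ l * ρ := by
      rw [abs_mul, hσa, one_mul]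
      exact hy
    rw [abs_le] at h5
    obtain ⟨x, hx, hx'⟩ := intermediate_value_Icc hcd hgc
      (show σ * y ∈ Icc (σ * g (x0 - ρ)) (σ * g (x0 + ρ)) from ⟨by nlinarith [h5.1],
        by nlinarith [h5.2]⟩)
    refine ⟨x, hx, ?_⟩
    have hx'' : σ * g x = σ * y := hx'
    calc g x = σ * (σ * g x) := by rw [← mul_assoc, hσ2, one_mul]
      _ = σ * (σ * y) := by rw [hx'']
      _ = y := by rw [← mul_assoc, hσ2, one_mul]
  choose! τ hτ using hsurj
  refine ⟨τ, ?_, ?_, ?_⟩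
  · obtain ⟨h3, h4⟩ := hτ (g x0) (by rw [sub_self, abs_zero]; positivity)
    have h5 := hinj _ h3 x0 hx0
    rw [h4, sub_self, abs_zero] at h5
    have h6 := abs_nonneg (τ (g x0) - x0)
    have h7 : |τ (g x0) - x0| = 0 := by nlinarith
    rw [abs_eq_zero] at h7
    show τ (g x0) = x0
    linarith
  · intro y hy
    obtain ⟨h3, h4⟩ := hτ y hy
    exact ⟨(hI _).1 h3, h4⟩
  · intro x y hx hy
    obtain ⟨h3, h4⟩ := hτ x hx
    obtain ⟨h5, h6⟩ := hτ y hy
    have h7 := hinj _ h3 _ h5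
    rw [h4, h6] at h7
    have h8 := abs_nonneg (τ x - τ y)
    nlinarith

/-- the image of a local curve -/
theorem LC.push {a l : ℝ} (hl : 8 ≤ l) {A : Set T2} {x0 y0 ρ : ℝ} (hρ : 0 ≤ ρ)
    (h : LC A x0 y0 ρ) (hL : ∀ x, |x - x0| ≤ ρ → l + 1 ≤ |L a x|) :
    LC (S a '' A) (2 * x0 - y0 + a * sin (2 * π * x0)) x0 (l * ρ) := by
  obtain ⟨w, h0, h1, h2⟩ := h
  obtain ⟨τ, h3, h4, h5⟩ := inv_branch hl hρ h2 hL
  rw [h0] at h3 h4 h5
  refine ⟨τ, h3, fun y hy => ?_, h5⟩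
  obtain ⟨h6, h7⟩ := h4 y hy
  refine ⟨_, h1 (τ y) h6, ?_⟩
  rw [S_coe, h7]

/-- the image of a local curve, with a good past -/
theorem LC.pushG {a l : ℝ} (hl : 8 ≤ l) {A : Set T2} {x0 y0 ρ : ℝ} (hρ : 0 ≤ ρ)
    (h : LC (A ∩ Gu a) x0 y0 ρ) (hL : ∀ x, |x - x0| ≤ ρ → l + 1 ≤ |L a x| ∧ 16 < |L a x|) :
    LC (S a '' A ∩ Gu a) (2 * x0 - y0 + a * sin (2 * π * x0)) x0 (l * ρ) := by
  have h' : LC ((A ∩ Gu a) ∩ {p | 16 < |Lc a p.1|}) x0 y0 ρ := by
    obtain ⟨w, h0, h1, h2⟩ := h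
    refine ⟨w, h0, fun x hx => ⟨h1 x hx, ?_⟩, h2⟩
    show 16 < |Lc a (x : UnitAddCircle)|
    rw [Lc_coe]
    exact (hL x hx).2
  refine (h'.push hl hρ fun x hx => (hL x hx).1).mono ?_
  rintro _ ⟨p, ⟨⟨hp1, hp2⟩, hp3⟩, rfl⟩
  exact ⟨mem_image_of_mem _ hp1, Gu_S hp2 hp3⟩

/-- `|L|` is large near the integers -/
theorem L_near {a : ℝ} (ha : 256 ≤ |a|) {c : ℤ} {x : ℝ} (hx : |x - c| ≤ 1 / 6) :
    700 ≤ |L a x| := by
  have hpi := pi_pos
  have hpi3 := pi_gt_three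
  have h1 : 1 / 2 ≤ cos (2 * π * x) := by
    have e : cos (2 * π * x) = cos |2 * π * (x - c)| := by
      rw [cos_abs]
      have : 2 * π * (x - c) = 2 * π * x - c * (2 * π) := by ring
      rw [this, cos_sub_int_mul_two_pi]
    rw [e, ← cos_pi_div_three]
    apply cos_le_cos_of_nonneg_of_le_pi (abs_nonneg _) (by linarith)
    rw [abs_mul, abs_of_pos (by positivity : 0 < 2 * π)]
    calc 2 * π * |x - c| ≤ 2 * π * (1 / 6) := mul_le_mul_of_nonneg_left hx (by positivity)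
      _ = π / 3 := by ring
  have h2 : 768 ≤ |2 * π * a * cos (2 * π * x)| := by
    have hc0 : |cos (2 * π * x)| = cos (2 * π * x) := abs_of_pos (by linarith)
    rw [abs_mul, abs_mul, abs_of_pos (by positivity : 0 < 2 * π), hc0]
    have h3 : 2 * 3 * 256 ≤ 2 * π * |a| := by
      apply mul_le_mul (by linarith) ha (by norm_num) (by positivity)
    nlinarith
  unfold L
  have h3 := abs_sub_abs_le_abs_sub (2 * π * a * cos (2 * π * x)) (-2)
  rw [abs_neg, abs_of_pos (by norm_num : (0:ℝ) < 2)] at h3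
  have e : 2 * π * a * cos (2 * π * x) - -2 = 2 + 2 * π * a * cos (2 * π * x) := by ring
  rw [e] at h3
  linarith

/-- a crossing curve with a good past has an image with a crossing curve with a good past -/
theorem hasCurve_S {a : ℝ} (ha : 256 ≤ |a|) {A : Set T2} (h : HasCurve (A ∩ Gu a)) :
    HasCurve (S a '' A ∩ Gu a) := by
  obtain ⟨α, w, h1, h2⟩ := h
  set c : ℤ := round α with hc
  have hc1 : |α - c| ≤ 1 / 2 := abs_sub_round α
  rw [abs_le] at hc1
  have hin : ∀ x : ℝ, |x - (c : ℝ)| ≤ 1 / 8 → x ∈ Icc (α - 1) (α + 1) := by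
    intro x hx
    rw [abs_le] at hx
    constructor <;> linarith
  have h3 : LC (A ∩ Gu a) c (w c) (1 / 8) :=
    ⟨w, rfl, fun x hx => h1 x (hin x hx), fun x y hx hy => h2 x (hin x hx) y (hin y hy)⟩
  have h4 := h3.pushG (a := a) (l := 16) (by norm_num) (by norm_num) fun x hx => by
    have := L_near ha (hx.trans (by norm_num : (1:ℝ) / 8 ≤ 1 / 6))
    constructor <;> linarith
  exact h4.hasCurve (by norm_num)

theorem hasCurve_iter {a : ℝ} (ha : 256 ≤ |a|) {A : Set T2} {n : ℕ}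
    (h : HasCurve ((S a)^[n] '' A ∩ Gu a)) (k : ℕ) :
    HasCurve ((S a)^[n + k] '' A ∩ Gu a) := by
  induction k with
  | zero => exact h
  | succ k ih =>
    have h1 := hasCurve_S ha ih
    rw [← image_comp, ← iterate_succ'] at h1
    exact h1

end Pool.Agent.N317.SM
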