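import Pool.Agent.N317.SM.Leaf

set_option autoImplicit false

/-!
# The local stable curve of the fixed point, and the growth of curves through asymptotic points
-/

namespace Pool.Agent.N317.SM

open Real MeasureTheory Function Set Filter Topology
open Pool.Agent.TH705.SM Pool.Agent.Y332.SM
open scoped ENNReal

theorem X_rec (a s t : ℝ) (k : ℕ) :
    X a s (k + 2) t = 2 * X a s (k + 1) t - X a s k t + a * sin (2 * π * X a s (k + 1) t) := rfl

theorem X_shift (a s t : ℝ) (k : ℕ) : X a t k (X a s 2 t) = X a s (k + 1) t := by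
  induction k using Nat.strong_induction_on with
  | _ k ih =>
    match k with
    | 0 => rfl
    | 1 => rfl
    | k + 2 =>
      have h1 := ih (k + 1) (by omega)
      have h0 := ih k (by omega)
      rw [X_rec, h1, h0, X_rec a s t (k + 1)]

/-- two orbits which stay near the fixed point come together -/
theorem contract {a : ℝ} (ha : 256 ≤ |a|) {u v : ℕ → ℝ}
    (hu : ∀ k, u (k + 2) = 2 * u (k + 1) - u k + a * sin (2 * π * u (k + 1)))
    (hv : ∀ k, v (k + 2) = 2 * v (k + 1) - v k + a * sin (2 * π * v (k + 1)))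
    (bu : ∀ k, |u k| ≤ 1 / 6) (bv : ∀ k, |v k| ≤ 1 / 6) (k : ℕ) :
    |u (k + 1) - v (k + 1)| ≤ 1 / 8 * |u k - v k| := by
  obtain ⟨σ, hσ, hG⟩ := G_mono (a := a) (l := 16) (by norm_num) (c := -(1/6)) (d := 1/6)
    (fun x hx => by
      have := L_near ha (c := 0) (x := x) (by
        rw [Int.cast_zero, sub_zero, abs_le]
        exact hx)
      linarith)
  have hσa : |σ| = 1 := by rcases hσ with rfl | rfl <;> norm_num
  have hexp : ∀ x y : ℝ, |x| ≤ 1 / 6 → |y| ≤ 1 / 6 →
      16 * |x - y| ≤ |(2 * x + a * sin (2 * π * x)) - (2 * y + a * sin (2 * π * y))| := by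
    intro x y hx hy
    rw [abs_le] at hx hy
    rcases le_total x y with h3 | h3
    · have h4 := hG x hx y hy h3
      rw [abs_sub_comm x y, abs_of_nonneg (by linarith : 0 ≤ y - x),
        abs_sub_comm (2 * x + a * sin (2 * π * x))]
      refine h4.trans ((le_abs_self _).trans ?_)
      rw [abs_mul, hσa, one_mul]
    · have h4 := hG y hy x hx h3
      rw [abs_of_nonneg (by linarith : 0 ≤ x - y)]
      refine h4.trans ((le_abs_self _).trans ?_)
      rw [abs_mul, hσa, one_mul]
  have key : ∀ j, 16 * |u (j + 1) - v (j + 1)| ≤ |u j - v j| + |u (j + 2) - v (j + 2)| := by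
    intro j
    have h1 := hexp _ _ (bu (j + 1)) (bv (j + 1))
    have e1 := hu j
    have e2 := hv j
    have e : (2 * u (j + 1) + a * sin (2 * π * u (j + 1))) -
        (2 * v (j + 1) + a * sin (2 * π * v (j + 1))) = (u j - v j) + (u (j + 2) - v (j + 2)) := by
      linarith
    rw [e] at h1
    exact h1.trans (abs_add_le _ _)
  by_contra hcon
  rw [not_le] at hcon
  have hd1 : 0 < |u (k + 1) - v (k + 1)| := lt_of_le_of_lt (by positivity) hcon
  have hall : ∀ j, |u (k + j) - v (k + j)| < 8 * |u (k + j + 1) - v (k + j + 1)| ∧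
      8 ^ j * |u (k + 1) - v (k + 1)| ≤ |u (k + j + 1) - v (k + j + 1)| := by
    intro j
    induction j with
    | zero =>
      rw [add_zero, pow_zero, one_mul]
      exact ⟨by linarith, le_rfl⟩
    | succ j ih =>
      obtain ⟨h1, h2⟩ := ih
      have h3 := key (k + j)
      have e : k + (j + 1) = k + j + 1 := by omega
      rw [e]
      have h4 : 0 < |u (k + j + 1) - v (k + j + 1)| := lt_of_lt_of_le (by positivity) h2
      have h5 : 8 * |u (k + j + 1) - v (k + j + 1)| ≤ |u (k + j + 2) - v (k + j + 2)| := by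
        linarith
      have e2 : k + j + 1 + 1 = k + j + 2 := rfl
      rw [e2]
      refine ⟨by linarith, ?_⟩
      rw [pow_succ]
      linarith
  obtain ⟨j, hj⟩ := pow_unbounded_of_one_lt (1 / |u (k + 1) - v (k + 1)|)
    (by norm_num : (1:ℝ) < 8)
  have h1 := (hall j).2
  rw [div_lt_iff₀ hd1] at hj
  have h2 := bu (k + j + 1)
  have h3 := bv (k + j + 1)
  have h4 := abs_sub (u (k + j + 1)) (v (k + j + 1))
  linarith

/-- finite orbits near the fixed point -/
theorem fin_orbit {a : ℝ} (ha : 256 ≤ |a|) (n : ℕ) : ∃ w : ℝ → ℝ, w 0 = 0 ∧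
    (∀ x y, |x - 0| ≤ 1 / 6 → |y - 0| ≤ 1 / 6 → |w x - w y| ≤ 1 / 8 * |x - y|) ∧
    ∀ x, |x| ≤ 1 / 6 → ∀ k ≤ n + 1, |X a x k (w x)| ≤ 1 / 6 := by
  induction n with
  | zero =>
    refine ⟨fun _ => 0, rfl, fun x y _ _ => ?_, fun x hx k hk => ?_⟩
    · rw [sub_self, abs_zero]
      positivity
    · match k with
      | 0 => exact hx
      | 1 =>
        show |(0:ℝ)| ≤ 1 / 6
        norm_num
      | k + 2 => omega
  | succ n ih =>
    obtain ⟨w, h0, h1, h2⟩ := ih
    obtain ⟨τ, h3, h4, h5⟩ := inv_branch (a := a) (l := 8) le_rfl (by norm_num : (0:ℝ) ≤ 1 / 6) h1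
      (fun x hx => by
        have := L_near ha (c := 0) (x := x) (by rwa [Int.cast_zero])
        linarith)
    have e0 : 2 * 0 - w 0 + a * sin (2 * π * 0) = 0 := by rw [h0]; simp
    rw [e0] at h3 h4 h5
    refine ⟨τ, h3, fun x y hx hy => h5 x y (by linarith) (by linarith), fun x hx k hk => ?_⟩
    obtain ⟨h6, h7⟩ := h4 x (by rw [sub_zero]; linarith)
    rw [sub_zero] at h6
    match k with
    | 0 => exact hx
    | k + 1 =>
      rw [← X_shift]
      have e : X a x 2 (τ x) = w (τ x) := by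
        show 2 * τ x - x + a * sin (2 * π * τ x) = w (τ x)
        linarith
      rw [e]
      exact h2 _ h6 k (by omega)

theorem bdd_orbit {a : ℝ} (ha : 256 ≤ |a|) {x : ℝ} (hx : |x| ≤ 1 / 6) :
    ∃ y, ∀ k, |X a x k y| ≤ 1 / 6 := by
  have h := IsCompact.nonempty_iInter_of_sequence_nonempty_isCompact_isClosed
    (fun n : ℕ => {y : ℝ | ∀ k ≤ n + 1, |X a x k y| ≤ 1 / 6})
    (fun n y hy k hk => hy k (by omega))
    (fun n => by
      obtain ⟨w, _, _, h2⟩ := fin_orbit ha n
      exact ⟨w x, h2 x hx⟩)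
    (by
      apply IsCompact.of_isClosed_subset (isCompact_Icc (a := -(1/6:ℝ)) (b := 1/6))
      · have e : {y : ℝ | ∀ k ≤ 0 + 1, |X a x k y| ≤ 1 / 6} =
            ⋂ k, ⋂ (_ : k ≤ 0 + 1), {y | |X a x k y| ≤ 1 / 6} := by
          ext y; simp only [Set.mem_ofPred_eq, Set.mem_iInter]
        rw [e]
        exact isClosed_iInter fun k => isClosed_iInter fun _ =>
          isClosed_le (Xt_cont a x k).abs continuous_const
      · intro y hy
        have h1 := hy 1 le_rfl
        have h2 : |y| ≤ 1 / 6 := h1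
        rwa [abs_le] at h2)
    (fun n => by
      have e : {y : ℝ | ∀ k ≤ n + 1, |X a x k y| ≤ 1 / 6} =
          ⋂ k, ⋂ (_ : k ≤ n + 1), {y | |X a x k y| ≤ 1 / 6} := by
        ext y; simp only [Set.mem_ofPred_eq, Set.mem_iInter]
      show IsClosed {y : ℝ | ∀ k ≤ n + 1, |X a x k y| ≤ 1 / 6}
      rw [e]
      exact isClosed_iInter fun k => isClosed_iInter fun _ =>
        isClosed_le (Xt_cont a x k).abs continuous_const)
  obtain ⟨y, hy⟩ := h
  refine ⟨y, fun k => ?_⟩
  rw [mem_iInter] at hy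
  exact hy k k (by omega)

theorem bdd_lt {a : ℝ} (ha : 256 ≤ |a|) {x y : ℝ} (h : ∀ k, |X a x k y| ≤ 1 / 6) (k : ℕ) :
    |X a x k y| ≤ (1 / 8) ^ k * |x| := by
  induction k with
  | zero =>
    show |x| ≤ _
    rw [pow_zero, one_mul]
  | succ k ih =>
    have h1 := contract ha (u := fun k => X a x k y) (v := fun _ => 0) (fun k => rfl)
      (fun k => by simp) h (fun k => by norm_num) k
    simp only [sub_zero] at h1
    rw [pow_succ]
    linarith

/-- **the local unstable curve of the fixed point** -/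
theorem LC_zero {a : ℝ} (ha : 256 ≤ |a|) : LC (Gu a) 0 0 (1 / 6) := by
  have hex : ∀ x : ℝ, |x| ≤ 1 / 6 → ∃ y, ∀ k, |X a x k y| ≤ 1 / 6 := fun x hx => bdd_orbit ha hx
  choose! w hw using hex
  have h0 : |(0:ℝ)| ≤ 1 / 6 := by norm_num
  refine ⟨w, ?_, fun x hx => ?_, fun x y hx hy => ?_⟩
  · have h1 := bdd_lt ha (hw 0 h0) 1
    rw [abs_zero, mul_zero] at h1
    have h2 : |w 0| ≤ 0 := h1
    exact abs_eq_zero.1 (le_antisymm h2 (abs_nonneg _))
  · rw [sub_zero] at hx
    show ((w x : UnitAddCircle), (x : UnitAddCircle)) ∈ Gs a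
    refine ⟨fun j => ?_, ?_⟩
    · rw [iter_coe, Lc_coe]
      have h1 := L_near ha (c := 0) (x := X a x (j + 1) (w x)) (by
        rw [Int.cast_zero, sub_zero]
        exact hw x hx _)
      linarith
    · have h1 : Tendsto (fun k => X a x k (w x)) atTop (𝓝 0) := by
        apply squeeze_zero_norm (a := fun k => (1 / 8 : ℝ) ^ k * |x|)
        · intro k
          rw [Real.norm_eq_abs]
          exact bdd_lt ha (hw x hx) k
        · have := (tendsto_pow_atTop_nhds_zero_of_lt_one (by norm_num : (0:ℝ) ≤ 1 / 8)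
            (by norm_num)).mul_const |x|
          rwa [zero_mul] at this
      have h2 : Tendsto (fun k => (X a x k (w x) : UnitAddCircle)) atTop (𝓝 ((0:ℝ) : UnitAddCircle)) :=
        ((AddCircle.continuous_mk' 1).tendsto 0).comp h1
      rw [AddCircle.coe_zero] at h2
      have h3 := ((tendsto_add_atTop_iff_nat 1).2 h2).prodMk_nhds h2
      refine h3.congr fun j => ?_
      rw [iter_coe]
  · rw [sub_zero] at hx hy
    exact contract ha (u := fun k => X a x k (w x)) (v := fun k => X a y k (w y)) (fun k => rfl)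
      (fun k => rfl) (hw x hx) (hw y hy) 0

/-- `|L|` is large in a neighbourhood -/
theorem L_nbhd {a x : ℝ} (h : 16 < |L a x|) : ∃ δ > 0, ∀ y, |y - x| ≤ δ → 16 < |L a y| := by
  have h1 : ContinuousAt (fun y => |L a y|) x := (L_cont a).abs.continuousAt
  obtain ⟨δ, hδ, h2⟩ := Metric.eventually_nhds_iff.1 (h1.eventually (lt_mem_nhds h))
  refine ⟨δ / 2, by positivity, fun y hy => h2 ?_⟩
  rw [Real.dist_eq]
  linarith

theorem image_succ {a : ℝ} (n : ℕ) (A : Set T2) :
    S a '' ((S a)^[n] '' A) = (S a)^[n + 1] '' A := by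
  rw [← image_comp, ← iterate_succ']

/-- **growth**: a curve through a point asymptotic to the fixed point has large images -/
theorem grow {a : ℝ} (ha : 256 ≤ |a|) {A : Set T2} {x0 y0 ρ : ℝ} (hρ : 0 < ρ)
    (h : LC (A ∩ Gu a) x0 y0 ρ) (hs : ((x0 : UnitAddCircle), (y0 : UnitAddCircle)) ∈ Gs a) :
    ∃ n, HasCurve ((S a)^[n] '' A ∩ Gu a) := by
  obtain ⟨hs1, hs2⟩ := hs
  have hL : ∀ j, 16 < |L a (X a y0 (j + 1) x0)| := by
    intro j
    have := hs1 j
    rwa [iter_coe, Lc_coe] at this
  have c1 : ∀ j, ∃ r > 0, LC ((S a)^[j] '' A ∩ Gu a) (X a y0 (j + 1) x0) (X a y0 j x0) r := by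
    intro j
    induction j with
    | zero => exact ⟨ρ, hρ, by rw [iterate_zero, image_id]; exact h⟩
    | succ j ih =>
      obtain ⟨r, hr, h1⟩ := ih
      obtain ⟨δ, hδ, h2⟩ := L_nbhd (hL j)
      refine ⟨8 * min r δ, by positivity, ?_⟩
      have h3 := (h1.shrink (min_le_left r δ)).pushG (a := a) le_rfl (by positivity) (fun x hx => by
        have := h2 x (hx.trans (min_le_right r δ))
        exact ⟨by linarith, this⟩)
      rw [image_succ] at h3
      exact h3
  have c2 : ∃ J, ∀ j ≥ J, ∃ c : ℤ, |X a y0 (j + 1) x0 - c| ≤ 1 / 16 := by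
    have h1 : Tendsto (fun j => (X a y0 (j + 1) x0 : UnitAddCircle)) atTop (𝓝 0) := by
      have h2 := (continuous_fst.tendsto ((0 : UnitAddCircle), (0 : UnitAddCircle))).comp hs2
      refine h2.congr fun j => ?_
      rw [comp_apply, iter_coe]
    have h2 : Tendsto (fun j => ‖(X a y0 (j + 1) x0 : UnitAddCircle)‖) atTop (𝓝 0) := by
      have := h1.norm
      rwa [norm_zero] at this
    obtain ⟨J, hJ⟩ := eventually_atTop.1 (h2.eventually (gt_mem_nhds (by norm_num : (0:ℝ) < 1 / 16)))
    refine ⟨J, fun j hj => ?_⟩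
    have h3 := hJ j hj
    rw [UnitAddCircle.norm_eq] at h3
    exact ⟨_, h3.le⟩
  obtain ⟨J, hJ⟩ := c2
  obtain ⟨r, hr, h1⟩ := c1 J
  have c3 : ∀ i, LC ((S a)^[J + i] '' A ∩ Gu a) (X a y0 (J + i + 1) x0) (X a y0 (J + i) x0)
      (min 1 (16 ^ i * r)) := by
    intro i
    induction i with
    | zero =>
      rw [add_zero, pow_zero, one_mul]
      exact h1.shrink (min_le_right _ _)
    | succ i ih =>
      obtain ⟨c, hc⟩ := hJ (J + i) (by omega)
      have h2 : min (1 / 16) (16 ^ i * r) ≤ min 1 (16 ^ i * r) :=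
        min_le_min_right _ (by norm_num)
      have h3 := (ih.shrink h2).pushG (a := a) (l := 16) (by norm_num) (by positivity)
        (fun x hx => by
          have h4 := L_near ha (c := c) (x := x) (by
            have h5 := hx.trans (min_le_left _ _)
            have e : x - c = (x - X a y0 (J + i + 1) x0) + (X a y0 (J + i + 1) x0 - c) := by ring
            rw [e]
            refine (abs_add_le _ _).trans ?_
            linarith)
          constructor <;> linarith)
      rw [image_succ] at h3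
      have e : 16 * min (1 / 16) (16 ^ i * r) = min 1 (16 ^ (i + 1) * r) := by
        rw [mul_min_of_nonneg _ _ (by norm_num : (0:ℝ) ≤ 16), pow_succ]
        congr 1
        · norm_num
        · ring
      rw [e] at h3
      exact h3
  obtain ⟨i, hi⟩ := pow_unbounded_of_one_lt (1 / r) (by norm_num : (1:ℝ) < 16)
  rw [div_lt_iff₀ hr] at hi
  refine ⟨J + i, (c3 i).hasCurve ?_⟩
  rw [le_min_iff]
  exact ⟨le_rfl, hi.le⟩

end Pool.Agent.N317.SM
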