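import Pool.Agent.N317.SM.Cover

set_option autoImplicit false

/-!
# The components of an invariant open set, and periodic domains
-/

namespace Pool.Agent.N317.SM

open Real MeasureTheory Function Set Filter Topology
open Pool.Agent.TH705.SM Pool.Agent.Y332.SM
open scoped ENNReal

instance instLCcircle : LocallyConnectedSpace UnitAddCircle := by
  have h : Topology.IsQuotientMap (fun x : ℝ => (x : UnitAddCircle)) :=
    QuotientAddGroup.isQuotientMap_mk _
  exact h.isCoinducing.locallyConnectedSpace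

/-- the standard map as a homeomorphism -/
noncomputable def SH (a : ℝ) : T2 ≃ₜ T2 where
  toFun := S a
  invFun := Si a
  left_inv := Si_S a
  right_inv := S_Si a
  continuous_toFun := S_cont a
  continuous_invFun := Si_cont a

theorem image_S {a : ℝ} {B : Set T2} (hB : S a ⁻¹' B = B) : S a '' B = B := by
  conv_lhs => rw [← hB]
  exact (SH a).image_preimage B

theorem pre_S {a : ℝ} {B : Set T2} (hB : S a '' B = B) : S a ⁻¹' B = B := by
  conv_lhs => rw [← hB]
  exact (SH a).preimage_image B

theorem comp_S {a : ℝ} {W : Set T2} (hW : S a ⁻¹' W = W) {p : T2} (hp : p ∈ W) :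
    S a '' connectedComponentIn W p = connectedComponentIn W (S a p) := by
  have h := (SH a).image_connectedComponentIn hp
  have e : (SH a : T2 → T2) = S a := rfl
  rw [e, image_S hW] at h
  exact h

theorem mem_S {a : ℝ} {W : Set T2} (hW : S a ⁻¹' W = W) {p : T2} (hp : p ∈ W) : S a p ∈ W := by
  rw [← hW] at hp; exact hp

theorem comp_iter {a : ℝ} {W : Set T2} (hW : S a ⁻¹' W = W) {p : T2} (hp : p ∈ W) (n : ℕ) :
    (S a)^[n] '' connectedComponentIn W p = connectedComponentIn W ((S a)^[n] p) := by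
  induction n with
  | zero => simp
  | succ n ih =>
    rw [iterate_succ', image_comp, ih, comp_S hW (iter_mem hW hp n)]
    rfl

/-- swapping the coordinates -/
theorem comp_swap {W : Set T2} {p : T2} (hp : p ∈ W) :
    connectedComponentIn (Prod.swap ⁻¹' W) (Prod.swap p) =
      Prod.swap ⁻¹' (connectedComponentIn W p) := by
  have h := (Homeomorph.prodComm UnitAddCircle UnitAddCircle).image_connectedComponentIn hp
  have e : (Homeomorph.prodComm UnitAddCircle UnitAddCircle : T2 → T2) = Prod.swap := rfl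
  rw [e, Set.image_swap_eq_preimage_swap] at h
  exact h.symm

theorem seg_preconn (r t s : ℝ) : IsPreconnected (seg r t s) := by
  have h1 : seg r t s = (fun u : ℝ => ((u : UnitAddCircle), (s : UnitAddCircle))) ''
      Icc (t - r) (t + r) := by
    ext p
    constructor
    · rintro ⟨u, hu, rfl⟩
      rw [abs_le] at hu
      exact ⟨u, ⟨by linarith, by linarith⟩, rfl⟩
    · rintro ⟨u, hu, rfl⟩
      refine ⟨u, ?_, rfl⟩
      rw [abs_le]
      constructor <;> linarith [hu.1, hu.2]
  rw [h1]
  apply isPreconnected_Icc.image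
  have : Continuous (fun u : ℝ => ((u : UnitAddCircle), (s : UnitAddCircle))) :=
    (AddCircle.continuous_mk' 1).prodMk continuous_const
  exact this.continuousOn

/-- the radius at time `n` -/
noncomputable def rad (M : ℝ) (n : ℕ) : ℝ := (1 / √M) ^ (n + 1) / 5

theorem rad_nonneg (M : ℝ) (n : ℕ) : 0 ≤ rad M n := by
  unfold rad
  positivity

/-- around a good point of a set the image of the set contains a crossing curve -/
theorem good_curve {a M : ℝ} (hM : 16 ≤ M) (haM : |a| = M ^ 2) {n : ℕ} (hn : 1 ≤ n) {B : Set T2}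
    {p : T2} (hb : p ∉ bad a M n) (hp : p ∈ B) (hf : p ∉ hnbd (rad M n) (frontier B)) :
    HasCurve ((S a)^[n] '' connectedComponentIn B p) := by
  unfold bad at hb
  rw [mem_union, not_or] at hb
  obtain ⟨p1, p2⟩ := p
  induction p1 using QuotientAddGroup.induction_on with
  | H t =>
    induction p2 using QuotientAddGroup.induction_on with
    | H s =>
      obtain ⟨h3, h4⟩ := good_point hM haM hn hb.1 hb.2
      have h5 := seg_sub (rad_nonneg M n) hp hf
      have h6 : seg (rem (bs a M s t n) n 1) t s ⊆ seg (rad M n) t s := by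
        rintro q ⟨u, hu, rfl⟩
        exact ⟨u, hu.trans h4, rfl⟩
      have h7 : seg (rad M n) t s ⊆
          connectedComponentIn B ((t : UnitAddCircle), (s : UnitAddCircle)) :=
        (seg_preconn _ _ _).subset_connectedComponentIn
          ⟨t, by simpa using rad_nonneg M n, rfl⟩ h5
      exact (curve (bs_ge hM n) h3).mono (image_mono (h6.trans h7))

theorem good_curve_comp {a M : ℝ} (hM : 16 ≤ M) (haM : |a| = M ^ 2) {n : ℕ} (hn : 1 ≤ n)
    {W : Set T2} (hW : S a ⁻¹' W = W)
    {p : T2} (hb : p ∉ bad a M n) (hp : p ∈ W) (hf : p ∉ hnbd (rad M n) (frontier W)) :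
    HasCurve (connectedComponentIn W ((S a)^[n] p)) := by
  rw [← comp_iter hW hp]
  exact good_curve hM haM hn hb hp hf

theorem swap_inv' {a : ℝ} {W : Set T2} (hW : S a ⁻¹' W = W) :
    S a ⁻¹' (Prod.swap ⁻¹' W) = Prod.swap ⁻¹' W := by
  have h : S a ⁻¹' Wᶜ = Wᶜ := by rw [preimage_compl, hW]
  have := swap_inv h
  rwa [compl_compl] at this

theorem S_swap (a : ℝ) (p : T2) : S a (Prod.swap p) = Prod.swap (Si a p) := by
  have h := swap_S a (Prod.swap p)
  rw [Prod.swap_swap] at h
  rw [← h, Prod.swap_swap]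

theorem S_swap_iter (a : ℝ) (n : ℕ) (p : T2) :
    (S a)^[n] (Prod.swap p) = Prod.swap ((Si a)^[n] p) := by
  have h : Semiconj (Prod.swap : T2 → T2) (Si a) (S a) := fun p => (S_swap a p).symm
  exact (h.iterate_right n p).symm

theorem mem_Si_iter {a : ℝ} {W : Set T2} (hW : S a ⁻¹' W = W) {p : T2} (hp : p ∈ W) (n : ℕ) :
    (Si a)^[n] p ∈ W := by
  have h := iter_mem (swap_inv' hW) (p := Prod.swap p) (by rwa [mem_preimage, Prod.swap_swap]) n
  rw [S_swap_iter, mem_preimage, Prod.swap_swap] at h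
  exact h

theorem front_swap' (A : Set T2) : frontier (Prod.swap ⁻¹' A) = Prod.swap ⁻¹' frontier A :=
  ((Homeomorph.prodComm UnitAddCircle UnitAddCircle).preimage_frontier A).symm

theorem good_curve_comp_v {a M : ℝ} (hM : 16 ≤ M) (haM : |a| = M ^ 2) {n : ℕ} (hn : 1 ≤ n)
    {W : Set T2} (hW : S a ⁻¹' W = W)
    {p : T2} (hb : Prod.swap p ∉ bad a M n) (hp : p ∈ W)
    (hf : Prod.swap p ∉ hnbd (rad M n) (Prod.swap ⁻¹' frontier W)) :
    HasCurve (Prod.swap ⁻¹' connectedComponentIn W ((Si a)^[n] p)) := by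
  rw [← front_swap'] at hf
  have h := good_curve_comp hM haM hn (swap_inv' hW) hb
    (by rwa [mem_preimage, Prod.swap_swap]) hf
  rw [S_swap_iter, comp_swap (mem_Si_iter hW hp n)] at h
  exact h

/-- iterates of an invariant set, backwards -/
theorem of_iter_mem {a : ℝ} {W : Set T2} (hW : S a ⁻¹' W = W) {p : T2} (n : ℕ)
    (hp : (S a)^[n] p ∈ W) : p ∈ W := by
  induction n with
  | zero => exact hp
  | succ n ih =>
    apply ih
    rw [iterate_succ_apply'] at hp
    rw [← hW]
    exact hp

theorem S_iter_Si' (a : ℝ) (n : ℕ) (p : T2) : (Si a)^[n] ((S a)^[n] p) = p := by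
  have h : LeftInverse (Si a) (S a) := Si_S a
  exact h.iterate n p

theorem comp_eq {W : Set T2} {p q x : T2} (h1 : x ∈ connectedComponentIn W p)
    (h2 : x ∈ connectedComponentIn W q) :
    connectedComponentIn W p = connectedComponentIn W q := by
  rw [connectedComponentIn_eq h1, connectedComponentIn_eq h2]

/-- the structure of an invariant open set -/
theorem structure_open {a M : ℝ} (hM : 16 ≤ M) (haM : |a| = M ^ 2) {W : Set T2} (hWo : IsOpen W)
    (hW : S a ⁻¹' W = W) :
    ∃ W₀ : Set T2, W₀ ⊆ W ∧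
      (W₀ = ∅ ∨ (S a ⁻¹' W₀ = W₀ ∧ (∃ p ∈ W, W₀ = connectedComponentIn W p) ∧
        HasCurve W₀ ∧ HasCurve (Prod.swap ⁻¹' W₀) ∧ IsConnected (pr ⁻¹' W₀))) ∧
      ((∀ n, 1 ≤ n → W \ W₀ ⊆ bad a M n ∪ hnbd (rad M n) (frontier W)) ∨
        (∀ n, 1 ≤ n → W \ W₀ ⊆ Prod.swap ⁻¹'
          (bad a M n ∪ hnbd (rad M n) (Prod.swap ⁻¹' frontier W)))) := by
  have ha : 256 ≤ |a| := by rw [haM]; nlinarith
  by_cases hH : ∃ p ∈ W, HasCurve (connectedComponentIn W p)
  · by_cases hV : ∃ q ∈ W, HasCurve (Prod.swap ⁻¹' connectedComponentIn W q)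
    · obtain ⟨p, hp, hpc⟩ := hH
      obtain ⟨q, hq, hqc⟩ := hV
      set W₀ := connectedComponentIn W p with hW₀
      -- all components with a horizontal curve are equal to `W₀`
      have e1 : connectedComponentIn W q = W₀ := by
        obtain ⟨z, hz1, hz2⟩ := meet hpc hqc
        exact comp_eq hz2 hz1
      rw [e1] at hqc
      have hall : ∀ x ∈ W, HasCurve (connectedComponentIn W x) → x ∈ W₀ := by
        intro x hx hxc
        obtain ⟨z, hz1, hz2⟩ := meet hxc hqc
        have e2 : connectedComponentIn W x = W₀ := comp_eq hz1 hz2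
        rw [← e2]
        exact mem_connectedComponentIn hx
      have hinv' : S a '' W₀ = W₀ := by
        have h1 : HasCurve (S a '' W₀) := (long_S ha hpc).hasCurve
        rw [hW₀, comp_S hW hp] at h1
        have h2 := hall _ (mem_S hW hp) h1
        rw [hW₀, comp_S hW hp]
        rw [hW₀] at h2
        exact (connectedComponentIn_eq h2).symm
      have hinv : S a ⁻¹' W₀ = W₀ := pre_S hinv'
      have hSi : Si a '' W₀ = W₀ := by
        conv_lhs => rw [← hinv', ← image_comp]
        have : Si a ∘ S a = id := funext (Si_S a)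
        rw [this, image_id]
      have hL1 : Long W₀ := by
        have := long_S ha hpc
        rwa [hinv'] at this
      have hL2 : Long (Prod.swap ⁻¹' W₀) := by
        have := long_Si ha hqc
        rwa [hSi] at this
      refine ⟨W₀, connectedComponentIn_subset _ _, Or.inr ⟨hinv, ⟨p, hp, rfl⟩, hpc, hqc,
        conn_of_long hWo.connectedComponentIn isPreconnected_connectedComponentIn hL1 hL2⟩,
        Or.inl ?_⟩
      intro n hn x hx
      by_contra hcon
      rw [mem_union, not_or] at hcon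
      have h1 := good_curve_comp hM haM hn hW hcon.1 hx.1 hcon.2
      exact hx.2 (of_iter_mem hinv n (hall _ (iter_mem hW hx.1 n) h1))
    · refine ⟨∅, empty_subset _, Or.inl rfl, Or.inr ?_⟩
      intro n hn x hx
      by_contra hcon
      rw [mem_preimage, mem_union, not_or] at hcon
      exact hV ⟨_, mem_Si_iter hW hx.1 n, good_curve_comp_v hM haM hn hW hcon.1 hx.1 hcon.2⟩
  · refine ⟨∅, empty_subset _, Or.inl rfl, Or.inl ?_⟩
    intro n hn x hx
    by_contra hcon
    rw [mem_union, not_or] at hcon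
    exact hH ⟨_, iter_mem hW hx.1 n, good_curve_comp hM haM hn hW hcon.1 hx.1 hcon.2⟩

/-- deep points are not near the frontier -/
theorem deep {W : Set T2} (hWo : IsOpen W) {r : ℝ} {p : T2} (hp : Metric.closedBall p r ⊆ W) :
    p ∉ hnbd r (frontier W) ∧ Prod.swap p ∉ hnbd r (Prod.swap ⁻¹' frontier W) := by
  have hd : Disjoint W (frontier W) := by
    have := disjoint_interior_frontier (s := W)
    rwa [hWo.interior_eq] at this
  constructor
  · rintro ⟨b, hb, hb'⟩
    refine Set.disjoint_left.1 hd (hp ?_) hb'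
    rw [Metric.mem_closedBall, Prod.dist_eq]
    simp only [dist_self]
    have h1 : dist (p.1 + (b : UnitAddCircle)) p.1 = ‖(b : UnitAddCircle)‖ := by
      rw [dist_eq_norm, add_sub_cancel_left]
    rw [h1]
    exact max_le ((norm_coe_le b).trans hb) ((abs_nonneg b).trans hb)
  · rintro ⟨b, hb, hb'⟩
    refine Set.disjoint_left.1 hd (hp ?_) hb'
    rw [Metric.mem_closedBall, Prod.dist_eq]
    simp only [Prod.fst_swap, Prod.snd_swap, dist_self]
    have h1 : dist (p.2 + (b : UnitAddCircle)) p.2 = ‖(b : UnitAddCircle)‖ := by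
      rw [dist_eq_norm, add_sub_cancel_left]
    rw [h1]
    exact max_le ((abs_nonneg b).trans hb) ((norm_coe_le b).trans hb)

/-- a set with a vertical crossing curve comes close to every good point -/
theorem near {a M : ℝ} (hM : 16 ≤ M) (haM : |a| = M ^ 2) {n : ℕ} (hn : 1 ≤ n) {B : Set T2}
    (hB : S a ⁻¹' B = B) (hv : HasCurve (Prod.swap ⁻¹' B)) {p : T2} (hb : p ∉ bad a M n) :
    ∃ q ∈ B, dist q p ≤ rad M n := by
  unfold bad at hb
  rw [mem_union, not_or] at hb
  obtain ⟨p1, p2⟩ := p
  induction p1 using QuotientAddGroup.induction_on with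
  | H t =>
    induction p2 using QuotientAddGroup.induction_on with
    | H s =>
      obtain ⟨h3, h4⟩ := good_point hM haM hn hb.1 hb.2
      obtain ⟨z, ⟨x, ⟨u, hu, rfl⟩, hxz⟩, hz⟩ := meet (curve (bs_ge hM n) h3) hv
      refine ⟨((u : UnitAddCircle), (s : UnitAddCircle)), of_iter_mem hB n (by rwa [hxz]), ?_⟩
      rw [Prod.dist_eq]
      simp only [dist_self]
      have h1 : dist (u : UnitAddCircle) (t : UnitAddCircle) ≤ rad M n := by
        rw [dist_eq_norm, ← AddCircle.coe_sub]
        exact (norm_coe_le _).trans (hu.trans h4)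
      exact max_le h1 (rad_nonneg M n)

/-- a domain which returns to itself or avoids itself, and is not thin -/
theorem returning {a M : ℝ} (hM : 16 ≤ M) (haM : |a| = M ^ 2) {D : Set T2} (hDo : IsOpen D)
    (hDc : IsPreconnected D) (hD : ∀ k, (S a)^[k] '' D = D ∨ Disjoint ((S a)^[k] '' D) D)
    {n : ℕ} (hn : 1 ≤ n) {p : T2} (hp : Metric.closedBall p (rad M n) ⊆ D)
    (hb : p ∉ bad a M n) (hb' : Prod.swap p ∉ bad a M n) :
    S a ⁻¹' D = D ∧ HasCurve D ∧ HasCurve (Prod.swap ⁻¹' D) ∧ IsConnected (pr ⁻¹' D) := by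
  have ha : 256 ≤ |a| := by rw [haM]; nlinarith
  obtain ⟨hf, hf'⟩ := deep hDo hp
  have hpD : p ∈ D := hp (Metric.mem_closedBall_self (rad_nonneg M n))
  have h1 : HasCurve ((S a)^[n] '' D) :=
    (good_curve hM haM hn hb hpD hf).mono (image_mono (connectedComponentIn_subset _ _))
  have h2 : HasCurve (Prod.swap ⁻¹' ((Si a)^[n] '' D)) := by
    rw [← front_swap'] at hf'
    have h3 := (good_curve hM haM hn hb' (B := Prod.swap ⁻¹' D)
      (by rwa [mem_preimage, Prod.swap_swap]) hf').mono
      (image_mono (connectedComponentIn_subset _ _))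
    refine h3.mono ?_
    rintro _ ⟨q, hq, rfl⟩
    refine ⟨Prod.swap q, hq, ?_⟩
    rw [← swap_S_iter]
  -- the two images are equal
  have h3 : (S a)^[n + n] '' D = D := by
    rcases hD (n + n) with h | h
    · exact h
    · exfalso
      obtain ⟨z, ⟨x, hx, hxz⟩, ⟨y, hy, hyz⟩⟩ := meet h1 h2
      refine Set.disjoint_left.1 h ⟨x, hx, ?_⟩ hy
      rw [iterate_add_apply, hxz, ← hyz, S_iter_Si]
  have hcomp : (Si a)^[n] ∘ (S a)^[n + n] = (S a)^[n] := by
    funext x
    rw [comp_apply, iterate_add_apply, S_iter_Si']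
  have h4 : (Si a)^[n] '' D = (S a)^[n] '' D := by
    conv_lhs => rw [← h3, ← image_comp, hcomp]
  rw [h4] at h2
  -- invariance
  have h5 : S a '' D = D := by
    rcases hD 1 with h | h
    · exact h
    · exfalso
      have h6 := (long_S ha h1).hasCurve
      obtain ⟨z, ⟨x, ⟨x', hx', hxx⟩, hxz⟩, ⟨y, hy, hyz⟩⟩ := meet h6 h2
      refine Set.disjoint_left.1 h ⟨x', hx', ?_⟩ hy
      rw [iterate_one]
      have h7 : (S a)^[n] (S a x') = (S a)^[n] y := by
        rw [← iterate_succ_apply, iterate_succ_apply', hxx, hxz, hyz]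
      have h8 := congrArg ((Si a)^[n]) h7
      rwa [S_iter_Si', S_iter_Si'] at h8
  have h6 : ∀ k, (S a)^[k] '' D = D := by
    intro k
    induction k with
    | zero => simp
    | succ k ih => rw [iterate_succ', image_comp, ih, h5]
  rw [h6 n] at h1 h2
  have h7 : Si a '' D = D := by
    conv_lhs => rw [← h5, ← image_comp]
    have : Si a ∘ S a = id := funext (Si_S a)
    rw [this, image_id]
  have hL1 : Long D := by
    have := long_S ha h1
    rwa [h5] at this
  have hL2 : Long (Prod.swap ⁻¹' D) := by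
    have := long_Si ha h2
    rwa [h7] at this
  exact ⟨pre_S h5, h1, h2, conn_of_long hDo hDc hL1 hL2⟩

/-- the exponential lower bound, from the inequality at all scales -/
theorem length_of {a M : ℝ} (hM : 16 ≤ M) (haM : |a| = M ^ 2) {F : Set T2} {η : ℝ}
    (h : ∀ n : ℕ, 1 ≤ n → ENNReal.ofReal η ≤ ENNReal.ofReal (3 * n / |a| + 3.71 / M) +
      ENNReal.ofReal (4 * ((1 / √M) ^ (n + 1) / 5)) * Measure.hausdorffMeasure 1 F) :
    ENNReal.ofReal (|a| ^ ((η * |a| - 5 * M) / 12)) ≤
      1 + 2 * Measure.hausdorffMeasure 1 F := by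
  have hM0 : 0 < M := by linarith
  have ha0 : 0 < |a| := by rw [haM]; positivity
  have ha1 : 1 < |a| := by rw [haM]; nlinarith
  have hla : 0 < log |a| := Real.log_pos ha1
  have hs0 : 0 < √M := Real.sqrt_pos.2 hM0
  by_cases htop : Measure.hausdorffMeasure 1 F = (⊤ : ℝ≥0∞)
  · rw [htop]
    have : (1:ℝ≥0∞) + 2 * ⊤ = ⊤ := by
      rw [ENNReal.mul_top (by norm_num)]
      simp
    rw [this]
    exact le_top
  · set ℓ : ℝ := (Measure.hausdorffMeasure 1 F).toReal with hℓ
    have hℓ0 : 0 ≤ ℓ := ENNReal.toReal_nonneg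
    have hℓe : Measure.hausdorffMeasure 1 F = ENNReal.ofReal ℓ :=
      (ENNReal.ofReal_toReal htop).symm
    set g : ℝ := log (1 + 2 * ℓ) with hg
    have hg0 : 0 ≤ g := Real.log_nonneg (by linarith)
    set k : ℕ := ⌈4 * g / log |a|⌉₊ with hk
    have hk1 : 4 * g / log |a| ≤ k := Nat.le_ceil _
    have hk2 : (k:ℝ) < 4 * g / log |a| + 1 := Nat.ceil_lt_add_one (by positivity)
    have h3 := h (k + 1) (by omega)
    rw [hℓe, ← ENNReal.ofReal_mul (by positivity), ← ENNReal.ofReal_add (by positivity)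
      (by positivity), ENNReal.ofReal_le_ofReal_iff (by positivity)] at h3
    -- the last term
    have hlogM : log |a| = 2 * log M := by rw [haM, Real.log_pow]; push_cast; ring
    have hlog : log √M = log |a| / 4 := by rw [Real.log_sqrt hM0.le, hlogM]; ring
    have h4 : 1 + 2 * ℓ ≤ √M ^ k := by
      rw [← Real.log_le_log_iff (by positivity) (by positivity), Real.log_pow, hlog, ← hg]
      rw [div_le_iff₀ hla] at hk1
      linarith
    have hsq : √M ^ 2 = M := Real.sq_sqrt hM0.le
    have h5 : 4 * ((1 / √M) ^ (k + 1 + 1) / 5) * ℓ ≤ 0.4 / M := by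
      have e : (1 / √M) ^ (k + 1 + 1) = (1 / √M ^ k) * (1 / M) := by
        rw [div_pow, one_pow, pow_add, pow_add, pow_one, mul_assoc, ← pow_two, hsq]
        field_simp
      rw [e]
      have h6 : (1 / √M ^ k) * (2 * ℓ) ≤ 1 := by
        rw [one_div, ← div_eq_inv_mul, div_le_one (by positivity)]
        linarith
      have e2 : 4 * ((1 / √M ^ k) * (1 / M) / 5) * ℓ = ((1 / √M ^ k) * (2 * ℓ)) * (0.4 / M) := by
        ring
      rw [e2]
      exact mul_le_of_le_one_left (by positivity) h6
    have h6 : η ≤ 3 * ((k + 1 : ℕ) : ℝ) / |a| + 3.71 / M + 0.4 / M := by linarith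
    push_cast at h6
    have h7 : η * |a| ≤ 3 * (k + 1) + 4.11 * M := by
      have h8 := mul_le_mul_of_nonneg_right h6 ha0.le
      have e : (3 * ((k:ℝ) + 1) / |a| + 3.71 / M + 0.4 / M) * |a| = 3 * (k + 1) + 4.11 * M := by
        have e3 : (3 * ((k:ℝ) + 1) / |a| + 3.71 / M + 0.4 / M) * |a| =
          3 * (k + 1) * (|a| / |a|) + 4.11 * (|a| / M) := by ring
        rw [e3, div_self ha0.ne', haM]
        field_simp
      rw [e] at h8
      exact h8
    have h8 : (η * |a| - 5 * M) / 12 * log |a| ≤ g := by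
      have h9 : (η * |a| - 5 * M) / 12 ≤ g / log |a| := by
        have : 4 * g / log |a| = 4 * (g / log |a|) := by ring
        linarith
      rwa [le_div_iff₀ hla] at h9
    have h9 : |a| ^ ((η * |a| - 5 * M) / 12) ≤ 1 + 2 * ℓ := by
      rw [Real.rpow_def_of_pos ha0, ← Real.exp_log (show (0:ℝ) < 1 + 2 * ℓ by positivity)]
      apply Real.exp_le_exp.2
      rw [mul_comm]
      exact h8
    rw [hℓe]
    have e1 : (1:ℝ≥0∞) = ENNReal.ofReal 1 := by norm_num
    have e2 : (2:ℝ≥0∞) = ENNReal.ofReal 2 := by norm_num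
    rw [e1, e2, ← ENNReal.ofReal_mul (by norm_num), ← ENNReal.ofReal_add (by norm_num)
      (by positivity)]
    exact ENNReal.ofReal_le_ofReal h9

/-- the area of the small components against the length of the boundary -/
theorem vol_small_part {a M : ℝ} (hM : 16 ≤ M) (haM : |a| = M ^ 2) {n : ℕ} (hn : 1 ≤ n)
    {W R : Set T2}
    (h : (R ⊆ bad a M n ∪ hnbd (rad M n) (frontier W)) ∨
        (R ⊆ Prod.swap ⁻¹' (bad a M n ∪ hnbd (rad M n) (Prod.swap ⁻¹' frontier W)))) :
    volume R ≤ ENNReal.ofReal (3 * n / |a| + 3.71 / M) +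
      ENNReal.ofReal (4 * ((1 / √M) ^ (n + 1) / 5)) *
        Measure.hausdorffMeasure 1 (frontier W) := by
  have hM0 : 0 < M := by linarith
  have hs0 : 0 < √M := Real.sqrt_pos.2 hM0
  have hr : 0 < (1 / √M) ^ (n + 1) / 5 := by positivity
  rcases h with h | h
  · refine (measure_mono h).trans ((measure_union_le _ _).trans (add_le_add
      (vol_bad hM haM hn) ?_))
    exact vol_hnbd hr _
  · refine (measure_mono h).trans ?_
    rw [vol_swap]
    refine (measure_union_le _ _).trans (add_le_add (vol_bad hM haM hn) ?_)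
    refine (vol_hnbd hr _).trans ?_
    exact mul_le_mul_right (haus_swap _) _

end Pool.Agent.N317.SM
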